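import Pool.Agent.H19.PR.Cusp

/-! # The kernel of Frobenius and exact differentials -/

set_option autoImplicit false

namespace Pool.Agent.H19.PR

open Polynomial

noncomputable section

/-- `x^g W`, where `W = ∑ w_j x^(-j)`. -/
def hat {R : Type*} [CommRing R] (g : ℕ) (w : Fin g → R) : R[X] :=
  ∑ j : Fin g, C (w j) * X ^ (g - 1 - (j : ℕ))

theorem hat_pow {R : Type*} [CommRing R] (p g : ℕ) [Fact p.Prime] [CharP R p] (w : Fin g → R) :
    hat g w ^ p = ∑ j : Fin g, C (w j ^ p) * X ^ (p * (g - 1 - (j : ℕ))) := by
  unfold hat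
  rw [sum_pow_char]
  refine Finset.sum_congr rfl fun j _ => ?_
  rw [mul_pow, ← C_pow, ← pow_mul, mul_comm p]

theorem Lam_eq_coeff {R : Type*} [CommRing R] (p g : ℕ) [Fact p.Prime] [CharP R p]
    (w : Fin g → R) (s : R[X]) : Lam p g w s = (X * s * hat g w ^ p).coeff (p * g) := by
  rw [hat_pow, Finset.mul_sum, finsetSum_coeff]
  unfold Lam
  refine Finset.sum_congr rfl fun j _ => ?_
  rw [show X * s * (C (w j ^ p) * X ^ (p * (g - 1 - (j : ℕ)))) =
    C (w j ^ p) * ((X * s) * X ^ (p * (g - 1 - (j : ℕ)))) by ring, coeff_C_mul]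
  have h1 : p * g = p * ((j : ℕ) + 1) + p * (g - 1 - (j : ℕ)) := by
    rw [← mul_add]
    congr 1
    have := j.2
    omega
  rw [h1, coeff_mul_X_pow, mul_comm]

theorem hat_natDegree {R : Type*} [CommRing R] (g : ℕ) (w : Fin g → R) :
    (hat g w).natDegree ≤ g - 1 := by
  refine natDegree_sum_le_of_forall_le _ _ fun j _ => ?_
  refine (natDegree_C_mul_X_pow_le _ _).trans (by omega)

theorem hat_ne_zero {R : Type*} [CommRing R] (g : ℕ) (w : Fin g → R) (hw : w ≠ 0) :
    hat g w ≠ 0 := by
  intro h
  apply hw
  funext j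
  have h1 := congrArg (fun q : R[X] => q.coeff (g - 1 - (j : ℕ))) h
  simp only [hat, finsetSum_coeff, coeff_C_mul, coeff_X_pow, coeff_zero] at h1
  rw [Finset.sum_eq_single j] at h1
  · simpa using h1
  · intro i _ hi
    rw [if_neg, mul_zero]
    intro h2
    apply hi
    apply Fin.ext
    have := i.2
    have := j.2
    omega
  · intro h; exact absurd (Finset.mem_univ _) h

section field

variable {k : Type*} [Field k] (p g : ℕ) [Fact p.Prime] [CharP k p] (hp2 : p ≠ 2)
  (f : k[X]) (w : Fin g → k)

include hp2 in
theorem exists_alpha (hg : 0 < g) (hF : Fr p g f w = 0) : ∃ α B : k[X],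
    f ^ ((p - 1) / 2) * hat g w ^ p = X ^ (p * g) * α + B ∧
      B.degree < (((p - 1) * g : ℕ) : WithBot ℕ) := by
  have hp := (Fact.out : p.Prime)
  set G := f ^ ((p - 1) / 2) * hat g w ^ p with hG
  have hm : (X ^ (p * g) : k[X]).Monic := monic_X_pow _
  refine ⟨G /ₘ X ^ (p * g), G %ₘ X ^ (p * g), ?_, ?_⟩
  · rw [add_comm]; exact (modByMonic_add_div G _).symm
  · rw [degree_lt_iff_coeff_zero]
    intro m hmm
    have hpg : (p - 1) * g + g = p * g := by
      have := hp.pos
      rw [← Nat.succ_mul]; congr 1; omega
    by_cases h : m < p * g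
    · obtain ⟨i, hi⟩ : ∃ i : ℕ, m + (i + 1) = p * g := ⟨p * g - m - 1, by omega⟩
      have hig : i < g := by omega
      have h1 : Fr p g f w ⟨i, hig⟩ = 0 := by rw [hF]; rfl
      rw [Fr_eq_Lam, Lam_eq_coeff] at h1
      simp only at h1
      rw [show (X * (X ^ i * f ^ ((p - 1) / 2)) * hat g w ^ p : k[X]) = G * X ^ (i + 1) by
        rw [hG, pow_succ]; ring, ← hi, coeff_mul_X_pow] at h1
      have h2 := modByMonic_add_div G (X ^ (p * g))
      have h3 := congrArg (fun q : k[X] => q.coeff m) h2
      simp only [coeff_add] at h3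
      rw [coeff_X_pow_mul', if_neg (by omega), add_zero, h1] at h3
      exact h3
    · apply coeff_eq_zero_of_degree_lt
      refine lt_of_lt_of_le (degree_modByMonic_lt G hm) ?_
      rw [degree_X_pow]
      exact_mod_cast not_lt.1 h

/-- divisibility from the differential equation -/
theorem pow_dvd_of_deriv (n : ℕ) (hn : n < p) (q : k[X]) (hs : f.Separable)
    (h : derivative q * f = C (n : k) * q * derivative f) : f ^ n ∣ q := by
  have key : ∀ m ≤ n, f ^ m ∣ q := by
    intro m
    induction m with
    | zero => intro _; simp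
    | succ m ih =>
      intro hm
      obtain ⟨r, hr⟩ := ih (by omega)
      by_cases hf0 : f = 0
      · subst hf0
        have := hs.ne_zero
        exact absurd rfl this
      have h1 : f ^ m * (derivative r * f) = f ^ m * (C ((n : k) - m) * r * derivative f) := by
        rcases m with _ | m
        · rw [pow_zero, one_mul, one_mul, Nat.cast_zero, sub_zero]
          rw [pow_zero, one_mul] at hr
          rw [← hr]; exact h
        · rw [hr, derivative_mul, derivative_pow_succ] at h
          rw [C_sub]
          have h2 : (C ((m : k) + 1) : k[X]) = C (((m + 1 : ℕ) : k)) := by push_cast; rfl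
          rw [h2] at h
          linear_combination h
      have h2 := mul_left_cancel₀ (pow_ne_zero m hf0) h1
      have h3 : f ∣ C ((n : k) - m) * r * derivative f := ⟨derivative r, by rw [← h2]; ring⟩
      have h4 : f ∣ C ((n : k) - m) * r := (IsCoprime.dvd_of_dvd_mul_right hs h3)
      have h5 : ((n : k) - m) ≠ 0 := by
        rw [← Nat.cast_sub (by omega), Ne, CharP.cast_eq_zero_iff k p]
        intro h6
        have := Nat.le_of_dvd (by omega) h6
        omega
      have h6 : f ∣ r := by
        have := (isUnit_C.2 (isUnit_iff_ne_zero.2 h5)).dvd_mul_left.1 h4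
        exact this
      obtain ⟨r', hr'⟩ := h6
      exact ⟨r', by rw [hr, hr', pow_succ]; ring⟩
  exact key n le_rfl

include hp2 in
/-- The exact differential is not zero. -/
theorem exact_form (hg : 0 < g) (hd : f.natDegree = 2 * g + 2) (hs : f.Separable) (hw : w ≠ 0)
    (α B : k[X]) (hG : f ^ ((p - 1) / 2) * hat g w ^ p = X ^ (p * g) * α + B)
    (hB : B.degree < (((p - 1) * g : ℕ) : WithBot ℕ)) :
    derivative α * f - C (((p - 1) / 2 : ℕ) : k) * α * derivative f ≠ 0 ∧
      (derivative α * f - C (((p - 1) / 2 : ℕ) : k) * α * derivative f).natDegree ≤ g := by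
  have hp := (Fact.out : p.Prime)
  have h2n := half_mul p hp2
  set n := (p - 1) / 2 with hn
  have hp1 := hp.one_lt
  have hn0 : 0 < n := by omega
  have hpn : p = 2 * n + 1 := by omega
  have hf0 : f ≠ 0 := hs.ne_zero
  have hH : derivative (hat g w ^ p) = 0 := by
    rw [derivative_pow, CharP.cast_eq_zero k p]; simp
  have hX : derivative (X ^ (p * g) : k[X]) = 0 := by
    rw [derivative_X_pow]; push_cast; rw [CharP.cast_eq_zero k p]; simp
  have hder := congrArg derivative hG
  rw [derivative_mul, hH, mul_zero, add_zero, derivative_add, derivative_mul, hX, zero_mul,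
    zero_add] at hder
  have hfn : f * derivative (f ^ n) = C (n : k) * f ^ n * derivative f := by
    obtain ⟨m, hm⟩ : ∃ m, n = m + 1 := ⟨n - 1, by omega⟩
    rw [hm, derivative_pow_succ]
    push_cast
    ring
  have hmain : X ^ (p * g) * (derivative α * f - C (n : k) * α * derivative f) =
      C (n : k) * B * derivative f - derivative B * f := by
    have h1 : f * (derivative (f ^ n) * hat g w ^ p) =
        C (n : k) * derivative f * (f ^ n * hat g w ^ p) := by
      rw [← mul_assoc, hfn]; ring
    rw [hder, hG] at h1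
    linear_combination h1
  constructor
  · intro h0
    rw [h0, mul_zero] at hmain
    have hα : f ^ n ∣ α := pow_dvd_of_deriv p f n (by omega) α hs (sub_eq_zero.1 h0)
    have hBd : f ^ n ∣ B := pow_dvd_of_deriv p f n (by omega) B hs (sub_eq_zero.1 hmain.symm).symm
    have hB0 : B = 0 := by
      by_contra hne
      have h1 := natDegree_le_of_dvd hBd hne
      rw [natDegree_pow, hd] at h1
      have h3 := (natDegree_lt_iff_degree_lt hne).2 hB
      rw [show p - 1 = 2 * n by omega] at h3
      nlinarith
    obtain ⟨α1, hα1⟩ := hα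
    rw [hB0, add_zero, hα1] at hG
    have h1 : hat g w ^ p = X ^ (p * g) * α1 := by
      apply mul_left_cancel₀ (pow_ne_zero n hf0)
      rw [hG]; ring
    have hne := pow_ne_zero p (hat_ne_zero g w hw)
    have h3 : α1 ≠ 0 := by
      rintro rfl
      rw [mul_zero] at h1
      exact hne h1
    have h4 := congrArg natDegree h1
    rw [natDegree_pow, natDegree_mul (pow_ne_zero _ X_ne_zero) h3, natDegree_X_pow] at h4
    have h5 := hat_natDegree g w
    have h6 : p * (hat g w).natDegree ≤ p * (g - 1) := Nat.mul_le_mul_left p h5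
    have h7 : p * (g - 1) < p * g := Nat.mul_lt_mul_of_pos_left (by omega) hp.pos
    omega
  · by_cases h0 : derivative α * f - C (n : k) * α * derivative f = 0
    · rw [h0]; simp
    have hdeg := congrArg natDegree hmain
    rw [natDegree_mul (pow_ne_zero _ X_ne_zero) h0, natDegree_X_pow] at hdeg
    have hBne : B ≠ 0 := by
      rintro rfl
      simp only [mul_zero, zero_mul, derivative_zero, sub_zero, natDegree_zero] at hdeg
      have : 0 < p * g := Nat.mul_pos hp.pos hg
      omega
    have hBd := (natDegree_lt_iff_degree_lt hBne).2 hB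
    have hfd : (derivative f).natDegree ≤ 2 * g + 1 := by
      refine (natDegree_derivative_le f).trans (by omega)
    have h1 : (C (n : k) * B * derivative f - derivative B * f).natDegree ≤
        B.natDegree + (2 * g + 1) := by
      refine (natDegree_sub_le _ _).trans (max_le ?_ ?_)
      · refine natDegree_mul_le.trans (add_le_add ?_ hfd)
        exact natDegree_C_mul_le _ _
      · by_cases hB1 : B.natDegree = 0
        · obtain ⟨c, hc⟩ := natDegree_eq_zero.1 hB1
          rw [← hc]; simp
        · have h3 := natDegree_derivative_lt hB1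
          refine natDegree_mul_le.trans ?_
          omega
    have h9 : (p - 1) * g + g = p * g := by
      rw [← Nat.succ_mul]; congr 1; omega
    omega

end field

end

end Pool.Agent.H19.PR
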