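import Pool.Agent.H19.PR.Defs

/-! # Supersingular elliptic curves -/

set_option autoImplicit false

namespace Pool.Agent.H19.PR

open Polynomial

noncomputable section

variable {k : Type*} [Field k]

theorem half_mul' (p : ℕ) [Fact p.Prime] (hp2 : p ≠ 2) : (p - 1) / 2 * 2 = p - 1 := by
  have h := (Fact.out : p.Prime).eq_two_or_odd'.resolve_left hp2
  obtain ⟨m, hm⟩ := h
  omega

theorem choose_ne_zero (p n : ℕ) [Fact p.Prime] [CharP k p] (hn : n ≤ p - 1) :
    (((p - 1).choose n : ℕ) : k) ≠ 0 := by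
  have hp := (Fact.out : p.Prime)
  rw [Ne, CharP.cast_eq_zero_iff k p]
  intro h
  have h1 := Nat.choose_mul_factorial_mul_factorial hn
  have h2 : p ∣ (p - 1).factorial := by
    rw [← h1, mul_assoc]
    exact h.mul_right _
  rw [hp.dvd_factorial] at h2
  have := hp.pos
  omega

theorem coeff_X_sub_C_pow {R : Type*} [CommRing R] (r : R) (n i : ℕ) :
    ((X - C r) ^ n : R[X]).coeff i = (-r) ^ (n - i) * (n.choose i : R) := by
  rw [sub_eq_add_neg, ← C_neg, coeff_X_add_C_pow]

theorem exists_lambda [IsAlgClosed k] (p : ℕ) [Fact p.Prime] [CharP k p] (hp2 : p ≠ 2) :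
    ∃ l : k, l ≠ 0 ∧ l ≠ 1 ∧
      ((X - C 1) ^ ((p - 1) / 2) * (X - C l) ^ ((p - 1) / 2) : k[X]).coeff ((p - 1) / 2) = 0 := by
  have hp := (Fact.out : p.Prime)
  have h2n := half_mul' p hp2
  set n := (p - 1) / 2 with hn
  have hn0 : 0 < n := by have := hp.one_lt; omega
  set S : k[X] := ∑ i ∈ Finset.range (n + 1),
    C (((X - C 1 : k[X]) ^ n).coeff i * ((-1) ^ i * (n.choose (n - i) : k))) * X ^ i with hS
  have hSeval : ∀ l : k, S.eval l = ((X - C 1) ^ n * (X - C l) ^ n : k[X]).coeff n := by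
    intro l
    rw [coeff_mul, Finset.Nat.sum_antidiagonal_eq_sum_range_succ_mk, hS, eval_finsetSum]
    refine Finset.sum_congr rfl fun i hi => ?_
    have hi' : i ≤ n := Nat.lt_succ_iff.1 (Finset.mem_range.1 hi)
    rw [coeff_X_sub_C_pow (R := k) l n (n - i)]
    simp only [eval_mul, eval_C, eval_pow, eval_X]
    rw [Nat.sub_sub_self hi', neg_pow l i]
    ring
  have hcn : S.coeff n ≠ 0 := by
    rw [hS, finsetSum_coeff, Finset.sum_eq_single n]
    · rw [coeff_C_mul, coeff_X_pow_self, mul_one, Nat.sub_self, Nat.choose_zero_right,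
        coeff_X_sub_C_pow]
      simp
    · intro i _ hi
      rw [coeff_C_mul, coeff_X_pow, if_neg (Ne.symm hi), mul_zero]
    · intro h; exact absurd (Finset.mem_range.2 (Nat.lt_succ_self n)) h
  obtain ⟨l, hl⟩ := IsAlgClosed.exists_root S (by
    intro h
    have h1 := le_degree_of_ne_zero hcn
    rw [h] at h1
    have : n ≤ 0 := by exact_mod_cast h1
    omega)
  have hl' : S.eval l = 0 := hl
  refine ⟨l, ?_, ?_, by rw [← hSeval]; exact hl'⟩
  · rintro rfl
    rw [hSeval, C_0, sub_zero] at hl'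
    have h1 := coeff_mul_X_pow ((X - C 1 : k[X]) ^ n) n 0
    rw [zero_add] at h1
    rw [h1, coeff_X_sub_C_pow] at hl'
    simp at hl'
  · rintro rfl
    rw [hSeval, ← pow_add, coeff_X_sub_C_pow] at hl'
    have h1 := choose_ne_zero (k := k) p n (by omega)
    rw [show n + n = p - 1 by omega] at hl'
    rcases mul_eq_zero.1 hl' with h | h
    · simp at h
    · exact h1 h

theorem base [IsAlgClosed k] (p : ℕ) [Fact p.Prime] [CharP k p] (hp2 : p ≠ 2) :
    ∃ f : k[X], Good p 1 f := by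
  have hp := (Fact.out : p.Prime)
  have h2n := half_mul' p hp2
  obtain ⟨l, hl0, hl1, hl⟩ := exists_lambda (k := k) p hp2
  have h2 : ((2 : ℕ) : k) ≠ 0 := by
    rw [Ne, CharP.cast_eq_zero_iff k p]
    intro h
    exact hp2 ((Nat.prime_dvd_prime_iff_eq hp Nat.prime_two).1 h)
  have hexp : (X ^ 2 - C 1) * (X ^ 2 - C l) = expand k 2 ((X - C 1) * (X - C l)) := by
    rw [map_mul, map_sub, map_sub, expand_X, expand_C, expand_C]
  have hm1 : (X ^ 2 - C 1 : k[X]).Monic := monic_X_pow_sub_C 1 (by norm_num)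
  have hm2 : (X ^ 2 - C l : k[X]).Monic := monic_X_pow_sub_C l (by norm_num)
  have hHW : hasseWitt p 1 ((X ^ 2 - C 1) * (X ^ 2 - C l) : k[X]) 0 0 = 0 := by
    unfold hasseWitt
    rw [hexp]
    have h3 : p * (((0 : Fin 1) : ℕ) + 1) = (p - 1) / 2 * 2 + 1 := by
      have := hp.pos
      rw [h2n]; simp; omega
    rw [h3, Fin.val_zero, zero_add, pow_one, coeff_X_mul, ← map_pow, mul_pow,
      coeff_expand_mul (by norm_num), hl]
  refine ⟨(X ^ 2 - C 1) * (X ^ 2 - C l), hm1.mul hm2, ?_, ?_, fun _ => 1, ?_, ?_⟩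
  · rw [hm1.natDegree_mul hm2, natDegree_X_pow_sub_C, natDegree_X_pow_sub_C]
  · refine (separable_X_pow_sub_C 1 h2 one_ne_zero).mul (separable_X_pow_sub_C l h2 hl0) ?_
    refine ⟨C (l - 1)⁻¹, -C (l - 1)⁻¹, ?_⟩
    have h4 : (C (l - 1)⁻¹ * C (l - 1) : k[X]) = 1 := by
      rw [← C_mul, inv_mul_cancel₀ (sub_ne_zero.2 hl1), C_1]
    rw [C_sub] at h4
    linear_combination h4
  · funext i
    simp only [Function.iterate_one, Fr, Finset.univ_unique, Fin.default_eq_zero,
      Finset.sum_singleton, Pi.zero_apply]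
    rw [show i = 0 from Subsingleton.elim _ _, hHW, zero_mul]
  · unfold cycDet
    rw [Matrix.det_fin_one]
    simp

end

end Pool.Agent.H19.PR
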