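import Pool.Agent.H19.PR.Trans

/-! # The cuspidal curve `y² = x² f(x)`, `f(0) = 0` -/

set_option autoImplicit false

namespace Pool.Agent.H19.PR

open Polynomial

noncomputable section

variable {R : Type*} [CommRing R]

/-- The value at `0` of the polynomial part. -/
def rho (p g : ℕ) (f : R[X]) (v : Fin g → R) : R :=
  ∑ j : Fin g, (f ^ ((p - 1) / 2)).coeff (p * ((j : ℕ) + 1)) * v j ^ p

theorem hasseWitt_cusp (p g : ℕ) [Fact p.Prime] (hp2 : p ≠ 2) (f : R[X]) (i j : Fin g) :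
    hasseWitt p g (X ^ 2 * f) i j = (X ^ (i : ℕ) * f ^ ((p - 1) / 2)).coeff (p * (j : ℕ)) := by
  have hp := (Fact.out : p.Prime)
  have h2 : (X : R[X]) ^ p = X * (X ^ 2) ^ ((p - 1) / 2) := by
    rw [← pow_mul, mul_comm 2, half_mul p hp2, ← pow_succ']
    congr 1
    have := hp.pos
    omega
  unfold hasseWitt
  rw [show (X ^ ((i : ℕ) + 1) * (X ^ 2 * f) ^ ((p - 1) / 2) : R[X]) =
    X ^ p * (X ^ (i : ℕ) * f ^ ((p - 1) / 2)) by rw [h2, mul_pow]; ring, mul_add, mul_one,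
    coeff_X_pow_mul]

theorem Fr_cusp (p g : ℕ) [Fact p.Prime] (hp2 : p ≠ 2) (f : R[X]) (hf : f.coeff 0 = 0)
    (v : Fin (g + 1) → R) :
    Fr p (g + 1) (X ^ 2 * f) v =
      Fin.cons (rho p g f fun j => v j.succ) (Fr p g f fun j => v j.succ) := by
  have hp := (Fact.out : p.Prime)
  have hn : 0 < (p - 1) / 2 := by
    have := half_mul p hp2
    have := hp.one_lt
    omega
  have h0 : ∀ i : ℕ, (X ^ i * f ^ ((p - 1) / 2)).coeff 0 = 0 := by
    intro i
    rw [mul_coeff_zero]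
    have : (f ^ ((p - 1) / 2)).coeff 0 = 0 := by
      rw [coeff_zero_eq_eval_zero, eval_pow, ← coeff_zero_eq_eval_zero, hf, zero_pow hn.ne']
    rw [this, mul_zero]
  funext i
  unfold Fr
  rw [Fin.sum_univ_succ, hasseWitt_cusp p _ hp2, Fin.val_zero, mul_zero, h0, zero_mul, zero_add]
  refine Fin.cases ?_ (fun i => ?_) i
  · rw [Fin.cons_zero]
    unfold rho
    refine Finset.sum_congr rfl fun j _ => ?_
    rw [hasseWitt_cusp p _ hp2, Fin.val_zero, pow_zero, one_mul, Fin.val_succ]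
  · rw [Fin.cons_succ]
    refine Finset.sum_congr rfl fun j _ => ?_
    rw [hasseWitt_cusp p _ hp2, Fin.val_succ, Fin.val_succ]
    rfl

theorem Fr_cusp_iterate_tail (p g : ℕ) [Fact p.Prime] (hp2 : p ≠ 2) (f : R[X])
    (hf : f.coeff 0 = 0) (v : Fin (g + 1) → R) (m : ℕ) :
    (fun j : Fin g => (Fr p (g + 1) (X ^ 2 * f))^[m] v j.succ) =
      (Fr p g f)^[m] fun j => v j.succ := by
  induction m generalizing v with
  | zero => rfl
  | succ m ih =>
    rw [Function.iterate_succ_apply, Function.iterate_succ_apply, ih, Fr_cusp p g hp2 f hf v]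
    rfl

theorem Fr_cusp_iterate_succ (p g : ℕ) [Fact p.Prime] (hp2 : p ≠ 2) (f : R[X])
    (hf : f.coeff 0 = 0) (v : Fin (g + 1) → R) (m : ℕ) :
    (Fr p (g + 1) (X ^ 2 * f))^[m + 1] v =
      Fin.cons (rho p g f ((Fr p g f)^[m] fun j => v j.succ))
        ((Fr p g f)^[m + 1] fun j => v j.succ) := by
  rw [Function.iterate_succ_apply', Fr_cusp p g hp2 f hf, Fr_cusp_iterate_tail p g hp2 f hf]
  rw [Function.iterate_succ_apply']

/-- The cuspidal curve is as good as possible. -/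
theorem cusp_good {k : Type*} [Field k] (p g : ℕ) [Fact p.Prime] [CharP k p] (hp2 : p ≠ 2)
    (hg : 0 < g) (f : k[X]) (hf : f.coeff 0 = 0) (e : Fin g → k) (he : (Fr p g f)^[g] e = 0)
    (hr : rho p g f ((Fr p g f)^[g - 1] e) ≠ 0) :
    (Fr p (g + 1) (X ^ 2 * f))^[g + 1] (Fin.cons 0 e : Fin (g + 1) → k) = 0 ∧
      cycDet p (g + 1) (X ^ 2 * f) (Fin.cons 0 e) ≠ 0 := by
  have hp := (Fact.out : p.Prime)
  have htail : (fun j : Fin g => (Fin.cons 0 e : Fin (g + 1) → k) j.succ) = e := by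
    funext j; simp
  have h1 : (Fr p (g + 1) (X ^ 2 * f))^[g + 1] (Fin.cons 0 e : Fin (g + 1) → k) = 0 := by
    rw [Fr_cusp_iterate_succ p g hp2 f hf, htail, he, Function.iterate_succ_apply', he,
      Fr_zero]
    funext i
    refine Fin.cases ?_ (fun i => ?_) i
    · simp [rho, hp.ne_zero]
    · simp
  refine ⟨h1, ?_⟩
  rw [cycDet_ne_zero_iff]
  refine linearIndependent_iterate p (g + 1) (X ^ 2 * f) _ g (fun h => hr ?_) h1
  obtain ⟨m, rfl⟩ : ∃ m, g = m + 1 := ⟨g - 1, by omega⟩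
  rw [Fr_cusp_iterate_succ p _ hp2 f hf, htail] at h
  have := congrFun h 0
  simpa using this

end

end Pool.Agent.H19.PR
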