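import Mathlib

/-! # Hasse-Witt matrices of hyperelliptic curves: definitions and functoriality -/

set_option autoImplicit false

namespace Pool.Agent.H19.PR

open Polynomial

noncomputable section

variable {R S : Type*} [CommRing R] [CommRing S]

/-- The Hasse-Witt matrix of the hyperelliptic curve `y² = f(x)` of genus `g` in characteristic `p`:
with `1 ≤ i, j ≤ g` its entry is the coefficient of `x^(pj)` in `x^i f^((p-1)/2)`, that is the
coefficient of `x^(pj-i)` in `f^((p-1)/2)`. -/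
def hasseWitt (p g : ℕ) (f : R[X]) : Matrix (Fin g) (Fin g) R := fun i j =>
  (X ^ ((i : ℕ) + 1) * f ^ ((p - 1) / 2)).coeff (p * ((j : ℕ) + 1))

/-- The Frobenius of `H¹(O)`. -/
def Fr (p g : ℕ) (f : R[X]) (v : Fin g → R) : Fin g → R :=
  fun i => ∑ j, hasseWitt p g f i j * v j ^ p

/-- The determinant of `e, F e, ..., F^(g-1) e`. -/
def cycDet (p g : ℕ) (f : R[X]) (e : Fin g → R) : R :=
  Matrix.det (Matrix.of fun i j : Fin g => (Fr p g f)^[(j : ℕ)] e i)

theorem hasseWitt_map (p g : ℕ) (f : R[X]) (φ : R →+* S) (i j : Fin g) :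
    hasseWitt p g (f.map φ) i j = φ (hasseWitt p g f i j) := by
  unfold hasseWitt
  rw [← coeff_map]
  simp

theorem Fr_map (p g : ℕ) (f : R[X]) (φ : R →+* S) (v : Fin g → R) :
    Fr p g (f.map φ) (φ ∘ v) = φ ∘ Fr p g f v := by
  funext i
  simp [Fr, hasseWitt_map]

theorem Fr_iterate_map (p g : ℕ) (f : R[X]) (φ : R →+* S) (v : Fin g → R) (m : ℕ) :
    (Fr p g (f.map φ))^[m] (φ ∘ v) = φ ∘ (Fr p g f)^[m] v := by
  induction m generalizing v with
  | zero => rfl
  | succ m ih => rw [Function.iterate_succ_apply, Function.iterate_succ_apply, Fr_map, ih]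

theorem cycDet_map (p g : ℕ) (f : R[X]) (φ : R →+* S) (e : Fin g → R) :
    cycDet p g (f.map φ) (φ ∘ e) = φ (cycDet p g f e) := by
  unfold cycDet
  rw [RingHom.map_det]
  congr 1
  ext i j
  simp [Fr_iterate_map, RingHom.mapMatrix_apply]

theorem Fr_add (p g : ℕ) [Fact p.Prime] [CharP R p] (f : R[X]) (v w : Fin g → R) :
    Fr p g f (v + w) = Fr p g f v + Fr p g f w := by
  funext i
  simp only [Fr, Pi.add_apply, add_pow_char, mul_add, Finset.sum_add_distrib]

theorem Fr_smul (p g : ℕ) (f : R[X]) (c : R) (v : Fin g → R) :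
    Fr p g f (c • v) = c ^ p • Fr p g f v := by
  funext i
  simp only [Fr, Pi.smul_apply, smul_eq_mul, mul_pow, Finset.mul_sum]
  exact Finset.sum_congr rfl fun j _ => by ring

theorem Fr_zero (p g : ℕ) [Fact p.Prime] (f : R[X]) : Fr p g f 0 = 0 := by
  funext i
  simp [Fr, (Fact.out : p.Prime).ne_zero]

theorem Fr_iterate_zero (p g : ℕ) [Fact p.Prime] (f : R[X]) (m : ℕ) :
    (Fr p g f)^[m] 0 = 0 := by
  induction m with
  | zero => rfl
  | succ m ih => rw [Function.iterate_succ_apply, Fr_zero, ih]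

theorem Fr_iterate_add (p g : ℕ) [Fact p.Prime] [CharP R p] (f : R[X]) (v w : Fin g → R)
    (m : ℕ) : (Fr p g f)^[m] (v + w) = (Fr p g f)^[m] v + (Fr p g f)^[m] w := by
  induction m generalizing v w with
  | zero => rfl
  | succ m ih => simp only [Function.iterate_succ_apply, Fr_add, ih]

theorem Fr_iterate_smul (p g : ℕ) (f : R[X]) (c : R) (v : Fin g → R) (m : ℕ) :
    (Fr p g f)^[m] (c • v) = c ^ p ^ m • (Fr p g f)^[m] v := by
  induction m generalizing v c with
  | zero => simp
  | succ m ih =>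
    rw [Function.iterate_succ_apply, Function.iterate_succ_apply, Fr_smul, ih, ← pow_mul, pow_succ']

theorem Fr_iterate_sum (p g : ℕ) [Fact p.Prime] [CharP R p] (f : R[X]) {ι : Type*}
    (s : Finset ι) (c : ι → R) (v : ι → Fin g → R) (m : ℕ) :
    (Fr p g f)^[m] (∑ i ∈ s, c i • v i) = ∑ i ∈ s, c i ^ p ^ m • (Fr p g f)^[m] (v i) := by
  classical
  induction s using Finset.induction_on with
  | empty => simp [Fr_iterate_zero]
  | insert a s ha ih =>
    rw [Finset.sum_insert ha, Finset.sum_insert ha, Fr_iterate_add, Fr_iterate_smul, ih]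

/-- A cyclic vector killed by `F^m`: then `F^m` is zero. -/
theorem Fr_iterate_eq_zero {k : Type*} [Field k] (p g : ℕ) [Fact p.Prime] [CharP k p] (f : k[X])
    (e : Fin g → k) (m : ℕ) (h0 : (Fr p g f)^[m] e = 0) (hd : cycDet p g f e ≠ 0)
    (v : Fin g → k) : (Fr p g f)^[m] v = 0 := by
  classical
  set M : Matrix (Fin g) (Fin g) k := Matrix.of fun i j : Fin g => (Fr p g f)^[(j : ℕ)] e i with hM
  have hu : IsUnit M.det := isUnit_iff_ne_zero.2 hd
  obtain ⟨c, hc⟩ : ∃ c : Fin g → k, v = ∑ j, c j • (Fr p g f)^[(j : ℕ)] e := by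
    refine ⟨M⁻¹.mulVec v, ?_⟩
    have h1 : M.mulVec (M⁻¹.mulVec v) = v := by
      rw [Matrix.mulVec_mulVec, Matrix.mul_nonsing_inv M hu, Matrix.one_mulVec]
    conv_lhs => rw [← h1]
    funext i
    simp only [Matrix.mulVec, dotProduct, Finset.sum_apply, Pi.smul_apply, smul_eq_mul, hM,
      Matrix.of_apply]
    exact Finset.sum_congr rfl fun j _ => by ring
  rw [hc, Fr_iterate_sum]
  refine Finset.sum_eq_zero fun j _ => ?_
  rw [← Function.iterate_add_apply, add_comm, Function.iterate_add_apply, h0, Fr_iterate_zero,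
    smul_zero]

/-- If `F^m v = 0` and `F^n v ≠ 0` for `n < m`, then `v, F v, ..., F^(n) v` are independent. -/
theorem linearIndependent_iterate {k : Type*} [Field k] (p g : ℕ) [Fact p.Prime] [CharP k p]
    (f : k[X]) (v : Fin g → k) (n : ℕ) (h1 : (Fr p g f)^[n] v ≠ 0)
    (h2 : (Fr p g f)^[n + 1] v = 0) :
    LinearIndependent k fun i : Fin (n + 1) => (Fr p g f)^[(i : ℕ)] v := by
  classical
  rw [Fintype.linearIndependent_iff]
  intro c hc
  by_contra hne
  push Not at hne
  obtain ⟨i, hi, hmin⟩ : ∃ i : Fin (n + 1), c i ≠ 0 ∧ ∀ j < i, c j = 0 := by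
    obtain ⟨i0, hi0⟩ := hne
    have hne' : (Finset.univ.filter fun i : Fin (n + 1) => c i ≠ 0).Nonempty := ⟨i0, by simpa⟩
    refine ⟨_, (Finset.mem_filter.1 (Finset.min'_mem _ hne')).2, fun j hj => ?_⟩
    by_contra hcj
    exact absurd (Finset.min'_le _ j (by simpa using hcj)) (not_le.2 hj)
  have h3 : (Fr p g f)^[n - i] (∑ j, c j • (Fr p g f)^[(j : ℕ)] v) = 0 := by
    rw [hc, Fr_iterate_zero]
  rw [Fr_iterate_sum, Finset.sum_eq_single i] at h3
  · rw [← Function.iterate_add_apply, show n - (i : ℕ) + i = n by have := i.2; omega] at h3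
    rcases smul_eq_zero.1 h3 with h | h
    · exact hi ((pow_eq_zero_iff (pow_pos (Fact.out : p.Prime).pos _).ne').1 h)
    · exact h1 h
  · intro j _ hj
    rcases lt_or_gt_of_ne hj with h | h
    · rw [hmin j h, zero_pow (pow_pos (Fact.out : p.Prime).pos _).ne', zero_smul]
    · have h4 : n - (i : ℕ) + j = (j - (i : ℕ) - 1) + (n + 1) := by
        have := Fin.lt_def.1 h
        have := i.2
        omega
      rw [← Function.iterate_add_apply, h4, Function.iterate_add_apply, h2, Fr_iterate_zero,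
        smul_zero]
  · intro h
    exact absurd (Finset.mem_univ _) h

/-- A nilpotent semilinear map of `K^d` satisfies `F^d = 0`. -/
theorem iterate_card_eq_zero {k : Type*} [Field k] (p g : ℕ) [Fact p.Prime] [CharP k p]
    (f : k[X]) (v : Fin g → k) (m : ℕ) (h : (Fr p g f)^[m] v = 0) : (Fr p g f)^[g] v = 0 := by
  classical
  by_contra hg
  have hex : ∃ n, (Fr p g f)^[n] v = 0 := ⟨m, h⟩
  obtain ⟨N, hN, hmin⟩ : ∃ N, (Fr p g f)^[N] v = 0 ∧ ∀ n < N, (Fr p g f)^[n] v ≠ 0 :=
    ⟨Nat.find hex, Nat.find_spec hex, fun n hn => Nat.find_min hex hn⟩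
  have hlt : g < N := by
    by_contra hle
    push Not at hle
    apply hg
    have h1 : (Fr p g f)^[g - N + N] v = 0 := by
      rw [Function.iterate_add_apply, hN, Fr_iterate_zero]
    rwa [Nat.sub_add_cancel hle] at h1
  have hli := linearIndependent_iterate p g f v (N - 1) (hmin _ (by omega))
    (by rw [show N - 1 + 1 = N by omega]; exact hN)
  have hcard := hli.fintype_card_le_finrank
  simp only [Fintype.card_fin, Module.finrank_fintype_fun_eq_card] at hcard
  omega

theorem cycDet_ne_zero_iff {k : Type*} [Field k] (p g : ℕ) (f : k[X]) (e : Fin g → k) :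
    cycDet p g f e ≠ 0 ↔ LinearIndependent k fun i : Fin g => (Fr p g f)^[(i : ℕ)] e := by
  unfold cycDet
  rw [← isUnit_iff_ne_zero, ← Matrix.isUnit_iff_isUnit_det,
    ← Matrix.linearIndependent_cols_iff_isUnit]
  rfl

/-- The condition which is proved by induction. -/
def Good {k : Type*} [Field k] (p g : ℕ) (f : k[X]) : Prop :=
  f.Monic ∧ f.natDegree = 2 * g + 2 ∧ f.Separable ∧
    ∃ e, (Fr p g f)^[g] e = 0 ∧ cycDet p g f e ≠ 0

end

end Pool.Agent.H19.PR
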