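import Pool.Agent.H19.PR.Fam

/-! # Double roots of deformations with nilpotent Frobenius -/

set_option autoImplicit false

namespace Pool.Agent.H19.PR

open Polynomial

noncomputable section

variable {k : Type*} [Field k]

theorem exists_double_factor {L : Type*} [Field L] [IsAlgClosed L] (F : L[X])
    (hns : ¬ F.Separable) : ∃ (a : L) (s : L[X]), F = (X - C a) ^ 2 * s := by
  have h1 : ¬ ∀ a : L, aeval a F ≠ 0 ∨ aeval a (derivative F) ≠ 0 := by
    intro h
    exact hns ((Polynomial.isCoprime_iff_aeval_ne_zero_of_isAlgClosed L L F (derivative F)).2 h)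
  push Not at h1
  obtain ⟨a, ha, ha'⟩ := h1
  rw [coe_aeval_eq_eval] at ha ha'
  obtain ⟨q, hq⟩ := dvd_iff_isRoot.2 (show F.IsRoot a from ha)
  have h2 : q.eval a = 0 := by
    rw [hq] at ha'
    simpa using ha'
  obtain ⟨s, hs⟩ := dvd_iff_isRoot.2 (show q.IsRoot a from h2)
  exact ⟨a, s, by rw [hq, hs]; ring⟩

theorem sep_const_ne (f h : k[X]) (hfh : f = X * h) (hs : f.Separable) : h.eval 0 ≠ 0 := by
  obtain ⟨u, v, huv⟩ := hs
  intro h0
  have h1 := congrArg (eval 0) huv
  rw [hfh] at h1
  simp [h0] at h1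

theorem res_part {T : Type*} [CommRing T] [IsDomain T] (h : k[X]) (hs : h.Separable)
    (j : k →+* T) (α : T) (t : T[X]) (hred : X ^ 3 * h.map j = (X - C α) ^ 3 * t) :
    α = 0 ∧ t = h.map j := by
  have hhs : (h.map j).Separable := hs.map
  have ha0 : α = 0 := by
    by_contra hne
    have h1 := congrArg (eval α) hred
    rw [eval_mul, eval_mul, eval_pow, eval_pow, eval_X, eval_sub, eval_X, eval_C, sub_self,
      zero_pow (by norm_num), zero_mul] at h1
    have h1' : eval α (h.map j) = 0 := (mul_eq_zero.1 h1).resolve_left (pow_ne_zero 3 hne)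
    have h2 := congrArg (fun q : T[X] => (derivative q).eval α) hred
    have e1 : (X - C α) ^ 3 * t = (X - C α) * ((X - C α) * ((X - C α) * t)) := by ring
    have e2 : eval α (derivative ((X - C α) ^ 3 * t)) = 0 := by
      rw [e1, derivative_mul, eval_add, eval_mul, eval_mul, eval_mul, eval_sub, eval_X, eval_C,
        sub_self, zero_mul, mul_zero, zero_add, eval_mul, eval_sub, eval_X, eval_C, sub_self,
        zero_mul]
    have e3 : eval α (derivative (X ^ 3 * h.map j)) = α ^ 3 * eval α (derivative (h.map j)) := by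
      rw [derivative_mul, eval_add, eval_mul, h1', mul_zero, zero_add, eval_mul, eval_pow, eval_X]
    simp only [e2, e3] at h2
    have h3 := (mul_eq_zero.1 h2).resolve_left (pow_ne_zero 3 hne)
    obtain ⟨u, v, huv⟩ := hhs
    have h4 := congrArg (eval α) huv
    rw [eval_add, eval_mul, eval_mul, h1', h3, mul_zero, mul_zero, add_zero, eval_one] at h4
    exact zero_ne_one h4
  refine ⟨ha0, ?_⟩
  rw [ha0, C_0, sub_zero] at hred
  exact (mul_left_cancel₀ (pow_ne_zero 3 X_ne_zero) hred).symm

theorem double_aux {R O T : Type*} [CommRing R] [CommRing O] [IsDomain O] [CommRing T]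
    [IsDomain T] (g : ℕ) (f h : k[X])
    (hfh : f = X * h) (hs : f.Separable)
    (φ : k →+* R) (ε : R →+* k) (c : Fin (2 * g + 1 + 3) → R)
    (hc : ∀ i, ε (c i) = 0) (hc0 : c 0 = 0) (ι : R →+* O) (hι : Function.Injective ι)
    (θ : O →+* T) (j : k →+* T) (hjφ : (θ.comp ι).comp φ = j) (hj : ∀ r : R, θ (ι r) = j (ε r))
    (a : O) (t : O[X]) (ht : (fam g f φ c).map ι = (X - C a) ^ 3 * t) : c 1 = 0 ∧ c 2 = 0 := by
  have hFOθ : ((fam g f φ c).map ι).map θ = X ^ 3 * h.map j := by
    rw [Polynomial.map_map, fam_map]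
    unfold fam
    have h1 : ∀ i : Fin (2 * g + 1 + 3), ((θ.comp ι) ∘ c) i = 0 := by
      intro i
      rw [Function.comp_apply, RingHom.comp_apply, hj, hc, map_zero]
    simp only [h1, C_0, zero_mul, Finset.sum_const_zero, add_zero]
    rw [hfh, show (X ^ 2 * (X * h) : k[X]) = X ^ 3 * h by ring, Polynomial.map_mul,
      Polynomial.map_pow, map_X, hjφ]
  have hred : X ^ 3 * h.map j = (X - C (θ a)) ^ 3 * t.map θ := by
    rw [← hFOθ, ht, Polynomial.map_mul, Polynomial.map_pow, Polynomial.map_sub, map_X, map_C]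
  have hhs : h.Separable := by
    rw [hfh] at hs; exact hs.of_mul_right
  obtain ⟨_, hth⟩ := res_part h hhs j (θ a) (t.map θ) hred
  have ht0 : t.coeff 0 ≠ 0 := by
    intro h0
    have h1 := congrArg (fun q : T[X] => q.coeff 0) hth
    simp only [coeff_map, h0, map_zero] at h1
    have h2 := sep_const_ne f h hfh hs
    rw [← coeff_zero_eq_eval_zero] at h2
    exact h2 (j.injective (by rw [← h1, map_zero]))
  have haO : a = 0 := by
    have h1 := congrArg (fun q : O[X] => q.coeff 0) ht
    simp only [coeff_map] at h1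
    rw [fam_coeff_zero, hc0, map_zero, mul_coeff_zero] at h1
    have h2 := (mul_eq_zero.1 h1.symm).resolve_right ht0
    have h3 : ((X - C a) ^ 3 : O[X]).coeff 0 = (-a) ^ 3 := by
      rw [coeff_zero_eq_eval_zero]; simp
    rw [h3] at h2
    exact neg_eq_zero.1 ((pow_eq_zero_iff (by norm_num)).1 h2)
  have hX3 : (fam g f φ c).map ι = X ^ 3 * t := by rw [ht, haO, C_0, sub_zero]
  constructor
  · apply hι
    rw [map_zero, ← fam_coeff_one g f φ c, ← coeff_map, hX3, coeff_X_pow_mul',
      if_neg (by norm_num)]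
  · apply hι
    have hf0 : f.coeff 0 = 0 := by rw [hfh]; simp
    rw [map_zero, ← fam_coeff_two g f hf0 φ c, ← coeff_map, hX3, coeff_X_pow_mul',
      if_neg (by norm_num)]

theorem double_root {R L : Type*} [CommRing R] [IsDomain R] [Field L] [IsAlgClosed L]
    [Algebra R L] (p g : ℕ) [Fact p.Prime] [CharP L p] (hp2 : p ≠ 2) (f h : k[X])
    (hfh : f = X * h) (hm : f.Monic) (hd : f.natDegree = 2 * g + 2) (hs : f.Separable)
    (φ : k →+* R) (ε : R →+* k) (hε : ∀ x, ε (φ x) = x) (c : Fin (2 * g + 1 + 3) → R)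
    (hc : ∀ i, ε (c i) = 0) (hc0 : c 0 = 0) (hinj : Function.Injective (algebraMap R L))
    (hnil : ∀ v : Fin (g + 1) → L,
      (Fr p (g + 1) ((fam g f φ c).map (algebraMap R L)))^[g + 1] v = 0)
    (hns : ¬ ((fam g f φ c).map (algebraMap R L)).Separable) : c 1 = 0 ∧ c 2 = 0 := by
  obtain ⟨hFm, hFd⟩ := fam_monic g f φ c hm hd
  obtain ⟨a, s, has⟩ := exists_double_factor _ hns
  have hFLd : ((fam g f φ c).map (algebraMap R L)).natDegree = 2 * (g + 1) + 2 := by
    rw [hFm.natDegree_map, hFd]
  have hsa : s.eval a = 0 := by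
    by_contra hne
    exact not_nilpotent_of_double p (g + 1) hp2 (Nat.succ_pos g) s a (by rw [← has, hFLd]) hne
      (by rw [← has]; exact hnil)
  obtain ⟨t, ht⟩ := dvd_iff_isRoot.2 (show s.IsRoot a from hsa)
  have hFL3 : (fam g f φ c).map (algebraMap R L) = (X - C a) ^ 3 * t := by rw [has, ht]; ring
  have haint : IsIntegral R a := by
    refine ⟨fam g f φ c, hFm, ?_⟩
    rw [eval₂_eq_eval_map, hFL3]
    simp
  have hOinj : Function.Injective (algebraMap R (integralClosure R L)) := by
    intro x y hxy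
    apply hinj
    have := congrArg (algebraMap (integralClosure R L) L) hxy
    rwa [← IsScalarTower.algebraMap_apply, ← IsScalarTower.algebraMap_apply] at this
  have hPp : (RingHom.ker ε).IsPrime := RingHom.ker_isPrime ε
  obtain ⟨M, hMp, hM⟩ := Ideal.exists_ideal_over_prime_of_isIntegral_of_isDomain
    (S := integralClosure R L) (RingHom.ker ε) (by
    rw [(RingHom.injective_iff_ker_eq_bot _).1 hOinj]; exact bot_le)
  have hj : ∀ r : R, Ideal.Quotient.mk M (algebraMap R (integralClosure R L) r) =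
      Ideal.Quotient.mk M (algebraMap R (integralClosure R L) (φ (ε r))) := by
    intro r
    have h1 : r - φ (ε r) ∈ RingHom.ker ε := by
      rw [RingHom.mem_ker, map_sub, hε, sub_self]
    rw [← hM, Ideal.mem_comap, map_sub] at h1
    exact Ideal.Quotient.eq.2 h1
  have hdvd : (X - C (⟨a, haint⟩ : integralClosure R L)) ^ 3 ∣
      (fam g f φ c).map (algebraMap R (integralClosure R L)) := by
    rw [← map_dvd_map (algebraMap (integralClosure R L) L) Subtype.val_injective
      ((monic_X_sub_C _).pow 3), Polynomial.map_map, ← IsScalarTower.algebraMap_eq R _ L,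
      hFL3, Polynomial.map_pow, Polynomial.map_sub, map_X, map_C]
    exact Dvd.intro _ rfl
  obtain ⟨t', ht'⟩ := hdvd
  have hT : IsDomain (integralClosure R L ⧸ M) := Ideal.Quotient.isDomain M
  exact double_aux g f h hfh hs φ ε c hc hc0 (algebraMap R (integralClosure R L)) hOinj
    (Ideal.Quotient.mk M)
    (((Ideal.Quotient.mk M).comp (algebraMap R (integralClosure R L))).comp φ) rfl hj
    ⟨a, haint⟩ t' ht'

end

end Pool.Agent.H19.PR
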