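import Pool.Agent.H19.PR.Tangent

/-! # The family of deformations of the cuspidal curve -/

set_option autoImplicit false

namespace Pool.Agent.H19.PR

open Polynomial

noncomputable section

variable {k : Type*} [Field k]

/-- deformations of `x² f` -/
def fam {R : Type*} [CommRing R] (g : ℕ) (f : k[X]) (φ : k →+* R)
    (c : Fin (2 * g + 1 + 3) → R) : R[X] :=
  (X ^ 2 * f).map φ + ∑ i : Fin (2 * g + 1 + 3), C (c i) * X ^ (i : ℕ)

theorem fam_map {R S : Type*} [CommRing R] [CommRing S] (g : ℕ) (f : k[X]) (φ : k →+* R)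
    (c : Fin (2 * g + 1 + 3) → R) (ψ : R →+* S) :
    (fam g f φ c).map ψ = fam g f (ψ.comp φ) (ψ ∘ c) := by
  unfold fam
  rw [Polynomial.map_add, Polynomial.map_map, Polynomial.map_sum]
  congr 1
  refine Finset.sum_congr rfl fun i _ => ?_
  simp

theorem fam_monic {R : Type*} [CommRing R] [Nontrivial R] (g : ℕ) (f : k[X]) (φ : k →+* R)
    (c : Fin (2 * g + 1 + 3) → R) (hm : f.Monic) (hd : f.natDegree = 2 * g + 2) :
    (fam g f φ c).Monic ∧ (fam g f φ c).natDegree = 2 * (g + 1) + 2 := by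
  have h1 : ((X ^ 2 * f).map φ).Monic := ((monic_X_pow 2).mul hm).map φ
  have h2 : (X ^ 2 * f).natDegree = 2 * g + 4 := by
    rw [(monic_X_pow 2).natDegree_mul hm, natDegree_X_pow, hd]; ring
  have h3 : ((X ^ 2 * f).map φ).natDegree = 2 * g + 4 := by
    rw [((monic_X_pow 2).mul hm).natDegree_map, h2]
  have h4 : ((X ^ 2 * f).map φ).degree = ((2 * g + 4 : ℕ) : WithBot ℕ) := by
    rw [degree_eq_natDegree h1.ne_zero, h3]
  have h5 : (∑ i : Fin (2 * g + 1 + 3), C (c i) * X ^ (i : ℕ)).degree <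
      ((X ^ 2 * f).map φ).degree := by
    rw [h4]
    refine lt_of_le_of_lt (degree_sum_le _ _) ?_
    rw [Finset.sup_lt_iff (WithBot.bot_lt_coe _)]
    intro i _
    refine lt_of_le_of_lt (degree_C_mul_X_pow_le _ _) ?_
    have := i.2
    exact_mod_cast (by omega : (i : ℕ) < 2 * g + 4)
  refine ⟨h1.add_of_left h5, ?_⟩
  unfold fam
  rw [natDegree_add_eq_left_of_degree_lt h5, h3]
  ring

/-- the tail of the deformation -/
def tailPoly {R : Type*} [CommRing R] (g : ℕ) (c : Fin (2 * g + 1 + 3) → R) : R[X] :=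
  ∑ l : Fin (2 * g + 1), C (c l.succ.succ.succ) * X ^ (l : ℕ)

theorem fam_eq {R : Type*} [CommRing R] (g : ℕ) (f : k[X]) (φ : k →+* R)
    (c : Fin (2 * g + 1 + 3) → R) (h0 : c 0 = 0) (h1 : c 1 = 0) (h2 : c 2 = 0) :
    fam g f φ c = X ^ 2 * (f.map φ + X * tailPoly g c) := by
  have hS : (∑ l : Fin (2 * g + 1), C (c l.succ.succ.succ) * X ^ ((l : ℕ) + 1 + 1 + 1) : R[X]) =
      X ^ 2 * (X * ∑ l : Fin (2 * g + 1), C (c l.succ.succ.succ) * X ^ (l : ℕ)) := by
    rw [Finset.mul_sum, Finset.mul_sum]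
    exact Finset.sum_congr rfl fun l _ => by ring
  unfold fam tailPoly
  rw [Fin.sum_univ_succ, Fin.sum_univ_succ, Fin.sum_univ_succ, h0]
  have e1 : (Fin.succ 0 : Fin (2 * g + 1 + 3)) = 1 := rfl
  have e2 : (Fin.succ (Fin.succ 0) : Fin (2 * g + 1 + 3)) = 2 := rfl
  rw [e1, e2, h1, h2, Polynomial.map_mul, Polynomial.map_pow, map_X, mul_add, ← hS]
  simp only [C_0, zero_mul, zero_add, Fin.val_succ]

theorem fam_coeff_zero {R : Type*} [CommRing R] (g : ℕ) (f : k[X]) (φ : k →+* R)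
    (c : Fin (2 * g + 1 + 3) → R) : (fam g f φ c).coeff 0 = c 0 := by
  unfold fam
  rw [coeff_add, coeff_map, finsetSum_coeff, Finset.sum_eq_single 0]
  · simp
  · intro i _ hi
    rw [coeff_C_mul, coeff_X_pow, if_neg, mul_zero]
    intro h
    exact hi (Fin.ext h.symm)
  · intro h; exact absurd (Finset.mem_univ _) h

theorem fam_coeff_one {R : Type*} [CommRing R] (g : ℕ) (f : k[X]) (φ : k →+* R)
    (c : Fin (2 * g + 1 + 3) → R) : (fam g f φ c).coeff 1 = c 1 := by
  unfold fam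
  rw [coeff_add, coeff_map, finsetSum_coeff, Finset.sum_eq_single 1]
  · have h1 : (X ^ 2 * f).coeff 1 = 0 := by
      rw [coeff_X_pow_mul', if_neg (by norm_num)]
    rw [h1]
    simp
  · intro i _ hi
    rw [coeff_C_mul, coeff_X_pow, if_neg, mul_zero]
    intro h
    exact hi (Fin.ext (by rw [← h]; rfl))
  · intro h; exact absurd (Finset.mem_univ _) h

theorem fam_coeff_two {R : Type*} [CommRing R] (g : ℕ) (f : k[X]) (hf : f.coeff 0 = 0)
    (φ : k →+* R) (c : Fin (2 * g + 1 + 3) → R) : (fam g f φ c).coeff 2 = c 2 := by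
  unfold fam
  rw [coeff_add, coeff_map, finsetSum_coeff, Finset.sum_eq_single 2]
  · have h1 : (X ^ 2 * f).coeff 2 = 0 := by
      have := coeff_X_pow_mul f 2 0
      rw [zero_add] at this
      rw [this, hf]
    rw [h1]
    have h2 : ((2 : Fin (2 * g + 1 + 3)) : ℕ) = 2 := rfl
    rw [h2]
    simp
  · intro i _ hi
    rw [coeff_C_mul, coeff_X_pow, if_neg, mul_zero]
    intro h
    exact hi (Fin.ext (by rw [← h]; rfl))
  · intro h; exact absurd (Finset.mem_univ _) h

/-- Frobenius nilpotent on the deformed curve implies it on the partial normalisation. -/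
theorem tail_nilpotent {R : Type*} [CommRing R] [IsDomain R] (p g : ℕ) [Fact p.Prime]
    [CharP R p] (hp2 : p ≠ 2) (f : k[X]) (hf : f.coeff 0 = 0) (φ : k →+* R)
    (c : Fin (2 * g + 1 + 3) → R) (h0 : c 0 = 0) (h1 : c 1 = 0) (h2 : c 2 = 0) (e : Fin g → R)
    (h : (Fr p (g + 1) (fam g f φ c))^[g + 1] (Fin.cons 0 e : Fin (g + 1) → R) = 0) :
    (Fr p g (f.map φ + X * tailPoly g c))^[g] e = 0 := by
  set F0 := f.map φ + X * tailPoly g c with hF0
  have hF00 : F0.coeff 0 = 0 := by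
    rw [hF0, coeff_add, coeff_map, hf, map_zero, mul_coeff_zero, coeff_X_zero, zero_mul, add_zero]
  rw [fam_eq g f φ c h0 h1 h2, ← hF0] at h
  have h3 := Fr_cusp_iterate_tail p g hp2 F0 hF00 (Fin.cons 0 e : Fin (g + 1) → R) (g + 1)
  rw [h] at h3
  have h4 : (Fr p g F0)^[g + 1] e = 0 := by
    have h5 : (fun j : Fin g => (Fin.cons 0 e : Fin (g + 1) → R) j.succ) = e := by
      funext j; simp
    rw [h5] at h3
    rw [← h3]; rfl
  -- pass to the fraction field
  let K := FractionRing R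
  have : CharP K p := charP_of_injective_algebraMap (IsFractionRing.injective R K) p
  have h6 := Fr_iterate_map p g F0 (algebraMap R K) e (g + 1)
  rw [h4] at h6
  have h7 : (Fr p g (F0.map (algebraMap R K)))^[g + 1] (algebraMap R K ∘ e) = 0 := by
    rw [h6]; funext j; simp
  have h8 := iterate_card_eq_zero p g (F0.map (algebraMap R K)) (algebraMap R K ∘ e) (g + 1) h7
  rw [Fr_iterate_map] at h8
  funext j
  have h9 := congrFun h8 j
  simp only [Function.comp_apply, Pi.zero_apply] at h9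
  exact (IsFractionRing.injective R K) (by rw [h9, Pi.zero_apply, map_zero])

end

end Pool.Agent.H19.PR
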