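import Pool.Agent.H19.PR.Main
import Pool.Agent.H19.PR.Base

/-! # The rank and the twisted powers of the Hasse-Witt matrix -/

set_option autoImplicit false

namespace Pool.Agent.H19.PR

open Polynomial

noncomputable section

universe u

variable {k : Type u} [Field k]

theorem Fr_eq_mulVec (p g : ℕ) (f : k[X]) (v : Fin g → k) :
    Fr p g f v = (hasseWitt p g f).mulVec fun j => v j ^ p := rfl

theorem twisted_prod (p g : ℕ) [Fact p.Prime] [CharP k p] (f : k[X]) (v : Fin g → k) (m : ℕ) :
    (((List.range m).map fun i => (hasseWitt p g f).map fun x => x ^ p ^ i).prod).mulVec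
      (fun j => v j ^ p ^ m) = (Fr p g f)^[m] v := by
  induction m generalizing v with
  | zero => simp
  | succ m ih =>
    rw [Function.iterate_succ_apply, ← ih, List.range_succ, List.map_append, List.prod_append,
      ← Matrix.mulVec_mulVec]
    congr 1
    simp only [List.map_cons, List.map_nil, List.prod_cons, List.prod_nil, mul_one]
    funext i
    simp only [Matrix.mulVec, dotProduct, Matrix.map_apply, Fr]
    rw [← iterateFrobenius_def, map_sum]
    refine Finset.sum_congr rfl fun j _ => ?_
    rw [iterateFrobenius_def, mul_pow, ← pow_mul, pow_succ']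

theorem good_matrix (p g : ℕ) [Fact p.Prime] [CharP k p] (hg : 1 ≤ g) (f : k[X])
    (hf : Good p g f) : (hasseWitt p g f).rank = g - 1 ∧
      ((List.range g).map fun i => (hasseWitt p g f).map fun x => x ^ p ^ i).prod = 0 := by
  classical
  have hp := (Fact.out : p.Prime)
  obtain ⟨-, -, -, e, he, hc⟩ := hf
  have hli := (cycDet_ne_zero_iff p g f e).1 hc
  constructor
  · apply le_antisymm
    · -- the kernel is not zero
      set w := (Fr p g f)^[g - 1] e with hw
      have hw0 : w ≠ 0 := hli.ne_zero ⟨g - 1, by omega⟩
      have hFw : Fr p g f w = 0 := by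
        rw [hw, ← Function.iterate_succ_apply' (Fr p g f), Nat.succ_eq_add_one,
          Nat.sub_add_cancel hg]
        exact he
      have hwp : (fun j => w j ^ p) ≠ 0 := by
        intro h
        apply hw0
        funext j
        exact (pow_eq_zero_iff hp.ne_zero).1 (congrFun h j)
      have hker : (hasseWitt p g f).mulVecLin.ker ≠ ⊥ := by
        intro h
        have h1 : (fun j => w j ^ p) ∈ (hasseWitt p g f).mulVecLin.ker := by
          rw [LinearMap.mem_ker, Matrix.mulVecLin_apply]
          exact hFw
        rw [h, Submodule.mem_bot] at h1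
        exact hwp h1
      have h1 := LinearMap.finrank_range_add_finrank_ker (hasseWitt p g f).mulVecLin
      have h2 : 0 < Module.finrank k (hasseWitt p g f).mulVecLin.ker :=
        Module.finrank_pos_iff.2 (Submodule.nontrivial_iff_ne_bot.2 hker)
      rw [Module.finrank_fintype_fun_eq_card, Fintype.card_fin] at h1
      change Module.finrank k (LinearMap.range (hasseWitt p g f).mulVecLin) ≤ g - 1
      omega
    · have hli2 : LinearIndependent k fun i : Fin (g - 1) => (Fr p g f)^[(i : ℕ) + 1] e := by
        have := hli.comp (fun i : Fin (g - 1) => (⟨(i : ℕ) + 1, by omega⟩ : Fin g))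
          (fun i j hij => Fin.ext (by simpa using congrArg Fin.val hij))
        exact this
      have h1 := finrank_span_eq_card hli2
      rw [Fintype.card_fin] at h1
      rw [← h1]
      change _ ≤ Module.finrank k (LinearMap.range (hasseWitt p g f).mulVecLin)
      apply Submodule.finrank_mono
      rw [Submodule.span_le]
      rintro _ ⟨i, rfl⟩
      refine ⟨fun j => ((Fr p g f)^[(i : ℕ)] e j) ^ p, ?_⟩
      simp only [Matrix.mulVecLin_apply]
      rw [Function.iterate_succ_apply']
      rfl
  · ext i j
    have h1 := twisted_prod p g f (Pi.single j 1) g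
    rw [Fr_iterate_eq_zero p g f e g he hc] at h1
    have h2 : (fun l => (Pi.single j (1 : k) : Fin g → k) l ^ p ^ g) = Pi.single j 1 := by
      funext l
      by_cases h : l = j
      · subst h; simp
      · rw [Pi.single_eq_of_ne h, zero_pow (pow_pos hp.pos _).ne']
    rw [h2, Matrix.mulVec_single_one] at h1
    simpa using congrFun h1 i

theorem exists_good [IsAlgClosed k] (p : ℕ) [Fact p.Prime] [CharP k p] (hp2 : p ≠ 2) (g : ℕ)
    (hg : 1 ≤ g) : ∃ f : k[X], Good p g f := by
  induction g, hg using Nat.le_induction with
  | base => exact base p hp2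
  | succ g hg ih =>
    obtain ⟨f, hf⟩ := ih
    exact step p g hp2 hg f hf

end

end Pool.Agent.H19.PR
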