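import Mathlib

/-! # Krull's height theorem at the origin of affine space -/

set_option autoImplicit false

namespace Pool.Agent.H19.PR

open MvPolynomial

noncomputable section

variable {k : Type*} [Field k] {N : ℕ}

theorem mem_vars (q : MvPolynomial (Fin N) k) :
    q ∈ idealOfVars (Fin N) k ↔ constantCoeff q = 0 := by
  have h := mem_pow_idealOfVars_iff' 1 q
  rw [pow_one] at h
  rw [h, constantCoeff_eq]
  constructor
  · intro h1; exact h1 0 (by simp)
  · intro h1 x hx
    have : x = 0 := by
      rw [Nat.lt_one_iff, Finsupp.degree_eq_zero_iff] at hx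
      exact hx
    rw [this]; exact h1

theorem vars_eq_ker : idealOfVars (Fin N) k = RingHom.ker (constantCoeff (R := k) (σ := Fin N)) := by
  ext q
  rw [mem_vars, RingHom.mem_ker]

instance vars_maximal : (idealOfVars (Fin N) k).IsMaximal := by
  rw [vars_eq_ker]
  exact RingHom.ker_isMaximal_of_surjective _ fun z => ⟨C z, by simp⟩

theorem exists_single (x : Fin N →₀ ℕ) (h : Finsupp.degree x = 1) :
    ∃ j, x = Finsupp.single j 1 := by
  classical
  rw [Finsupp.degree_eq_sum] at h
  obtain ⟨j, hj⟩ : ∃ j, x j ≠ 0 := by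
    by_contra hcon
    push Not at hcon
    simp [hcon] at h
  refine ⟨j, ?_⟩
  have h1 := Finset.add_sum_erase Finset.univ (fun i => x i) (Finset.mem_univ j)
  ext i
  by_cases hij : i = j
  · subst hij
    rw [Finsupp.single_eq_same]
    omega
  · rw [Finsupp.single_apply, if_neg (Ne.symm hij)]
    have h2 : x i ≤ ∑ i ∈ Finset.univ.erase j, x i :=
      Finset.single_le_sum (f := fun i => x i) (fun _ _ => Nat.zero_le _)
        (Finset.mem_erase.2 ⟨hij, Finset.mem_univ i⟩)
    omega

/-- translation -/
def transl (x : Fin N → k) : MvPolynomial (Fin N) k ≃ₐ[k] MvPolynomial (Fin N) k :=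
  AlgEquiv.ofAlgHom (aeval fun i => X i + C (x i)) (aeval fun i => X i - C (x i))
    (by ext i; simp [algebraMap_eq]) (by ext i; simp [algebraMap_eq])

theorem height_vars [IsAlgClosed k] : (idealOfVars (Fin N) k).height = N := by
  have hdim : ringKrullDim (MvPolynomial (Fin N) k) = N := by
    rw [MvPolynomial.ringKrullDim_of_isNoetherianRing, ringKrullDim_eq_zero_of_field]
    simp
  have : FiniteRingKrullDim (MvPolynomial (Fin N) k) := by
    rw [finiteRingKrullDim_iff_ne_bot_and_top, hdim]
    exact ⟨WithBot.coe_ne_bot, by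
      intro h
      have h' := WithBot.coe_injective h
      exact ENat.natCast_ne_top N h'⟩
  obtain ⟨M, hM, hh⟩ := Ideal.exists_isMaximal_height (R := MvPolynomial (Fin N) k)
  obtain ⟨x, hx⟩ := (isMaximal_iff_eq_vanishingIdeal_singleton (I := M)).1 hM
  have h1 : M = (idealOfVars (Fin N) k).comap (transl x).toRingEquiv := by
    ext q
    rw [Ideal.mem_comap, mem_vars, hx, mem_vanishingIdeal_singleton_iff]
    have h2 : (constantCoeff (R := k) (σ := Fin N)).comp
        ((transl x).toRingEquiv : MvPolynomial (Fin N) k →+* MvPolynomial (Fin N) k) =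
        (aeval x : MvPolynomial (Fin N) k →ₐ[k] k).toRingHom := by
      apply MvPolynomial.ringHom_ext
      · intro r
        simp [transl]
      · intro i
        simp [transl]
    have h3 := congrArg (fun φ : MvPolynomial (Fin N) k →+* k => φ q) h2
    constructor
    · intro h; rw [← h]; exact h3
    · intro h; rw [← h]; exact h3.symm
  have h4 : M.height = (idealOfVars (Fin N) k).height := by
    rw [h1]; exact RingEquiv.height_comap _ _
  rw [hdim, h4] at hh
  exact_mod_cast hh

theorem exists_prime [IsAlgClosed k] {ι : Type*} [Fintype ι] (F : ι → MvPolynomial (Fin N) k)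
    (hc : Fintype.card ι < N) (h0 : ∀ i, constantCoeff (F i) = 0) :
    ∃ q : Ideal (MvPolynomial (Fin N) k), q.IsPrime ∧ (∀ i, F i ∈ q) ∧
      q ≤ idealOfVars (Fin N) k ∧ q ≠ idealOfVars (Fin N) k := by
  classical
  set s : Finset (MvPolynomial (Fin N) k) := Finset.univ.image F with hs
  have hle : Ideal.span (s : Set (MvPolynomial (Fin N) k)) ≤ idealOfVars (Fin N) k := by
    rw [Ideal.span_le]
    intro x hx
    rw [hs, Finset.coe_image] at hx
    obtain ⟨i, _, rfl⟩ := hx
    exact (mem_vars _).2 (h0 i)
  obtain ⟨q, hq, hqle⟩ := Ideal.exists_minimalPrimes_le hle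
  refine ⟨q, hq.1.1, fun i => hq.1.2 (Ideal.subset_span ?_), hqle, ?_⟩
  · rw [hs]; simp
  · intro heq
    have h1 := Ideal.height_le_card_of_mem_minimalPrimes_span_finset hq
    rw [heq, height_vars] at h1
    have h2 : s.card ≤ Fintype.card ι := Finset.card_image_le
    have h3 : N ≤ s.card := by exact_mod_cast h1
    omega

/-- No tangent vectors: the ideal is the maximal one. -/
theorem eq_vars_of_no_tangent (q : Ideal (MvPolynomial (Fin N) k)) [hqp : q.IsPrime]
    (hq : q ≤ idealOfVars (Fin N) k)
    (h : ∀ v : Fin N → k, (∀ f ∈ q, ∑ i, v i * coeff (Finsupp.single i 1) f = 0) → v = 0) :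
    q = idealOfVars (Fin N) k := by
  classical
  set m := idealOfVars (Fin N) k with hm
  let lin : MvPolynomial (Fin N) k →ₗ[k] (Fin N → k) :=
    LinearMap.pi fun i => lcoeff k (Finsupp.single i 1)
  have hlin : ∀ f i, lin f i = coeff (Finsupp.single i 1) f := fun f i => rfl
  set U : Submodule k (Fin N → k) := (q.restrictScalars k).map lin with hU
  have hUtop : U = ⊤ := by
    by_contra hne
    obtain ⟨φ, hφ, hker⟩ := Submodule.exists_le_ker_of_lt_top U (lt_top_iff_ne_top.2 hne)
    apply hφ
    have hv := h (fun i => φ (Pi.single i 1)) (by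
      intro f hf
      have h1 : lin f ∈ U := ⟨f, hf, rfl⟩
      have h2 : φ (lin f) = 0 := hker h1
      rw [← h2, pi_eq_sum_univ' (lin f), map_sum]
      refine Finset.sum_congr rfl fun i _ => ?_
      rw [map_smul, smul_eq_mul, mul_comm, hlin])
    apply LinearMap.pi_ext'
    intro i
    ext
    simpa using congrFun hv i
  have hmem : ∀ i, ∃ f ∈ q, ∀ j, coeff (Finsupp.single j 1) f = if j = i then 1 else 0 := by
    intro i
    have h1 : (Pi.single i 1 : Fin N → k) ∈ U := by rw [hUtop]; trivial
    obtain ⟨f, hf, hfi⟩ := h1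
    refine ⟨f, hf, fun j => ?_⟩
    rw [← hlin, hfi, Pi.single_apply]
  have hsup : m ≤ q ⊔ m • m := by
    have h1 : m = Ideal.span (Set.range (X : Fin N → MvPolynomial (Fin N) k)) := rfl
    conv_lhs => rw [h1]
    rw [Ideal.span_le]
    rintro _ ⟨i, rfl⟩
    obtain ⟨f, hf, hfc⟩ := hmem i
    have h2 : X i - f ∈ m ^ 2 := by
      rw [hm, mem_pow_idealOfVars_iff']
      intro x hx
      have h3 : Finsupp.degree x = 0 ∨ Finsupp.degree x = 1 := by omega
      rcases h3 with h3 | h3
      · rw [Finsupp.degree_eq_zero_iff] at h3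
        subst h3
        have h4 := (mem_vars f).1 (hq hf)
        rw [constantCoeff_eq] at h4
        rw [coeff_sub, h4]
        simp
      · obtain ⟨j, hj⟩ : ∃ j, x = Finsupp.single j 1 := by
          exact exists_single x h3
        rw [hj, coeff_sub, hfc, coeff_X]
        by_cases hij : i = j
        · subst hij; simp
        · rw [if_neg, if_neg (Ne.symm hij), sub_zero]
          intro h5
          exact hij ((Finsupp.single_left_inj one_ne_zero).1 h5)
    have h6 : (X i : MvPolynomial (Fin N) k) = f + (X i - f) := by ring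
    rw [SetLike.mem_coe, h6]
    refine Submodule.add_mem_sup hf ?_
    rwa [smul_eq_mul, ← pow_two]
  have hfg : m.FG := idealOfVars_fg _ _
  obtain ⟨r, hr1, hr2⟩ := Submodule.exists_sub_one_mem_and_smul_le_of_fg_of_le_sup
    (I := m) (N := q) (N' := m) (P := m) hfg le_rfl hsup
  have hrq : r ∉ q := by
    intro hrq
    have h1 : (1 : MvPolynomial (Fin N) k) ∈ m := by
      have := m.sub_mem (hq hrq) hr1
      simpa using this
    exact (Ideal.ne_top_iff_one m).1 (vars_maximal (k := k) (N := N)).ne_top h1
  refine le_antisymm hq fun x hx => ?_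
  have h1 : r • x ∈ q := hr2 (Submodule.smul_mem_pointwise_smul x r m hx)
  exact (hqp.mem_or_mem h1).resolve_left hrq

end

end Pool.Agent.H19.PR
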