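import Pool.Agent.H19.PR.Step

/-! # The induction -/

set_option autoImplicit false

namespace Pool.Agent.H19.PR

open Polynomial

noncomputable section

universe u

variable {k : Type u} [Field k]

theorem step [IsAlgClosed k] (p g : ℕ) [Fact p.Prime] [CharP k p] (hp2 : p ≠ 2) (hg : 0 < g)
    (f0 : k[X]) (hf0 : Good p g f0) : ∃ F : k[X], Good p (g + 1) F := by
  classical
  obtain ⟨f, e, hm, hd, hs, hfc, he, hcyc, hrho⟩ := root_to_zero p g hp2 hg f0 hf0
  obtain ⟨h, hfh⟩ := X_dvd_iff.2 hfc
  have hw0 : (Fr p g f)^[g - 1] e ≠ 0 :=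
    ((cycDet_ne_zero_iff p g f e).1 hcyc).ne_zero ⟨g - 1, by omega⟩
  have hFw : Fr p g f ((Fr p g f)^[g - 1] e) = 0 := by
    rw [← Function.iterate_succ_apply' (Fr p g f), Nat.succ_eq_add_one, Nat.sub_add_cancel hg]
    exact he
  obtain ⟨M, hM⟩ := exists_complement p g hp2 hg f h hfh hd hs _ hw0 hFw
  obtain ⟨hS1, hS2⟩ := cusp_good p g hp2 hg f hfc e he hrho
  set eS : Fin (g + 1) → k := Fin.cons 0 e with heS
  let N := 2 * g + 1 + 3
  let P := MvPolynomial (Fin (2 * g + 1 + 3)) k
  let CP : k →+* P := MvPolynomial.C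
  let XS : Fin (2 * g + 1 + 3) → P := MvPolynomial.X
  let Φ : P[X] := fam g f CP XS
  let b : Fin (g + 1) → P := (Fr p (g + 1) Φ)^[g + 1] (CP ∘ eS)
  let ℓ : Fin (g + 1) → P := fun j => ∑ l : Fin (2 * g + 1),
    CP (M (Pi.single l 1) j) * XS l.succ.succ.succ
  let Fι : Unit ⊕ (Fin (g + 1) ⊕ Fin (g + 1)) → P := Sum.elim (fun _ => XS 0) (Sum.elim b ℓ)
  have hcc : ∀ x, (MvPolynomial.constantCoeff.comp CP) x = x := fun x => by
    simp [CP]
  have hccX : ∀ i, (MvPolynomial.constantCoeff ∘ XS) i = (0 : k) := fun i => by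
    simp [XS]
  have hΦ0 : Φ.map MvPolynomial.constantCoeff = X ^ 2 * f := by
    rw [fam_map]
    exact fam_zero g f _ hcc _ hccX
  have heS0 : (MvPolynomial.constantCoeff ∘ (CP ∘ eS) : Fin (g + 1) → k) = eS := by
    funext i
    exact hcc (eS i)
  have h0 : ∀ i, MvPolynomial.constantCoeff (Fι i) = 0 := by
    rintro (i | i | i)
    · exact hccX 0
    · have h1 := Fr_iterate_map p (g + 1) Φ MvPolynomial.constantCoeff (CP ∘ eS) (g + 1)
      rw [hΦ0, heS0, hS1] at h1
      exact (congrFun h1 i).symm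
    · change MvPolynomial.constantCoeff (∑ l : Fin (2 * g + 1),
        CP (M (Pi.single l 1) i) * XS l.succ.succ.succ) = 0
      rw [map_sum]
      refine Finset.sum_eq_zero fun l _ => ?_
      rw [map_mul]
      have := hccX l.succ.succ.succ
      rw [Function.comp_apply] at this
      rw [this, mul_zero]
  obtain ⟨q, hq, hmem, hle, hne⟩ := exists_prime Fι (by
    simp only [Fintype.card_sum, Fintype.card_unit, Fintype.card_fin]; omega) h0
  let R := P ⧸ q
  have hR : IsDomain R := Ideal.Quotient.isDomain q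
  let π : P →+* R := Ideal.Quotient.mk q
  let φ : k →+* R := π.comp CP
  let c : Fin (2 * g + 1 + 3) → R := π ∘ XS
  let ε : R →+* k := Ideal.Quotient.lift q MvPolynomial.constantCoeff
    (fun a ha => (mem_vars a).1 (hle ha))
  have hε : ∀ x, ε (φ x) = x := fun x => hcc x
  have hc : ∀ i, ε (c i) = 0 := fun i => hccX i
  have hc0 : c 0 = 0 := Ideal.Quotient.eq_zero_iff_mem.2 (hmem (Sum.inl ()))
  have hchR : CharP R p := charP_of_injective_ringHom φ.injective p
  have hΦR : Φ.map π = fam g f φ c := fam_map g f CP XS π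
  have hb : (Fr p (g + 1) (fam g f φ c))^[g + 1] (φ ∘ eS) = 0 := by
    have h1 := Fr_iterate_map p (g + 1) Φ π (CP ∘ eS) (g + 1)
    rw [hΦR] at h1
    have h2 : (π ∘ (CP ∘ eS) : Fin (g + 1) → R) = φ ∘ eS := rfl
    rw [h2] at h1
    rw [h1]
    funext i
    exact Ideal.Quotient.eq_zero_iff_mem.2 (hmem (Sum.inr (Sum.inl i)))
  have hFε : (fam g f φ c).map ε = X ^ 2 * f := by
    rw [fam_map]
    exact fam_zero g f _ hε _ hc
  have hdet : cycDet p (g + 1) (fam g f φ c) (φ ∘ eS) ≠ 0 := by
    intro h1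
    apply hS2
    have h2 := cycDet_map p (g + 1) (fam g f φ c) ε (φ ∘ eS)
    rw [h1, hFε, map_zero] at h2
    have h3 : (ε ∘ (φ ∘ eS) : Fin (g + 1) → k) = eS := by
      funext i; exact hε (eS i)
    rwa [h3] at h2
  have hsepK : ((fam g f φ c).map (algebraMap R (FractionRing R))).Separable := by
    by_contra hns
    let L := AlgebraicClosure (FractionRing R)
    have hinjK : Function.Injective (algebraMap R (FractionRing R)) :=
      IsFractionRing.injective R (FractionRing R)
    have hchK : CharP (FractionRing R) p := charP_of_injective_algebraMap hinjK p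
    have hchL : CharP L p :=
      charP_of_injective_algebraMap (algebraMap (FractionRing R) L).injective p
    have hinj : Function.Injective (algebraMap R L) := by
      rw [IsScalarTower.algebraMap_eq R (FractionRing R) L]
      exact (algebraMap (FractionRing R) L).injective.comp hinjK
    have hnsL : ¬ ((fam g f φ c).map (algebraMap R L)).Separable := by
      rw [IsScalarTower.algebraMap_eq R (FractionRing R) L, ← Polynomial.map_map,
        separable_map]
      exact hns
    have hnil : ∀ v : Fin (g + 1) → L,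
        (Fr p (g + 1) ((fam g f φ c).map (algebraMap R L)))^[g + 1] v = 0 := by
      intro v
      apply Fr_iterate_eq_zero p (g + 1) _ (algebraMap R L ∘ (φ ∘ eS))
      · rw [Fr_iterate_map, hb]
        funext i; simp
      · rw [cycDet_map]
        intro h1
        exact hdet (hinj (by rw [h1, map_zero]))
    obtain ⟨hc1, hc2⟩ := double_root p g hp2 f h hfh hm hd hs φ ε hε c hc hc0 hinj hnil hnsL
    have htail := tail_nilpotent p g hp2 f hfc φ c hc0 hc1 hc2 (φ ∘ e) (by
      have h1 : (Fin.cons 0 (φ ∘ e) : Fin (g + 1) → R) = φ ∘ eS := by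
        funext i
        refine Fin.cases ?_ (fun i => ?_) i
        · simp [heS]
        · simp [heS]
      rw [h1]; exact hb)
    apply hne
    apply eq_vars_of_no_tangent q hle
    intro v hv
    let D : P →+* DualNumber k := MvPolynomial.eval₂Hom (algebraMap k (DualNumber k))
      (fun i => DualNumber.eps * algebraMap k (DualNumber k) (v i))
    have hD : ∀ a ∈ q, D a = 0 := by
      intro a ha
      have h1 := dual_eval v a
      rw [(mem_vars a).1 (hle ha), hv a ha, map_zero, mul_zero, add_zero] at h1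
      exact h1
    let θ : R →+* DualNumber k := Ideal.Quotient.lift q D hD
    refine no_tangent p g hp2 hg f e M hM φ c hc0 hc1 hc2 htail ?_ θ ?_ v ?_
    · intro j
      have h1 : π (ℓ j) = 0 := Ideal.Quotient.eq_zero_iff_mem.2 (hmem (Sum.inr (Sum.inr j)))
      rw [← h1]
      change _ = π (∑ l : Fin (2 * g + 1), CP (M (Pi.single l 1) j) * XS l.succ.succ.succ)
      rw [map_sum]
      exact Finset.sum_congr rfl fun l _ => (map_mul π _ _).symm
    · ext x
      · exact congrArg TrivSqZeroExt.fst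
          (MvPolynomial.eval₂_C (algebraMap k (DualNumber k)) _ x)
      · exact congrArg TrivSqZeroExt.snd
          (MvPolynomial.eval₂_C (algebraMap k (DualNumber k)) _ x)
    · intro i
      exact MvPolynomial.eval₂_X (algebraMap k (DualNumber k)) _ i
  obtain ⟨d, U, V, hd0, hUV⟩ := bezout_clear (fam g f φ c) hsepK
  obtain ⟨d', hd'⟩ := Ideal.Quotient.mk_surjective (I := q) d
  set Δ : P := d' * cycDet p (g + 1) Φ (CP ∘ eS) with hΔ
  have hcdet : π (cycDet p (g + 1) Φ (CP ∘ eS)) = cycDet p (g + 1) (fam g f φ c) (φ ∘ eS) := by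
    rw [← cycDet_map, hΦR]
    rfl
  have hΔq : Δ ∉ q := by
    intro h1
    have h2 : π Δ = 0 := Ideal.Quotient.eq_zero_iff_mem.2 h1
    rw [hΔ, map_mul, hcdet] at h2
    rcases mul_eq_zero.1 h2 with h3 | h3
    · exact hd0 (by rw [← hd']; exact h3)
    · exact hdet h3
  obtain ⟨x, hx, hxΔ⟩ : ∃ x ∈ MvPolynomial.zeroLocus k q, MvPolynomial.aeval x Δ ≠ 0 := by
    by_contra hcon
    push Not at hcon
    apply hΔq
    rw [← MvPolynomial.IsPrime.vanishingIdeal_zeroLocus (K := k) q]
    intro x hx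
    exact hcon x hx
  let η : R →+* k := Ideal.Quotient.lift q (MvPolynomial.aeval x : P →ₐ[k] k).toRingHom
    (fun a ha => hx a ha)
  have hηφ : ∀ y, η (φ y) = y := by
    intro y
    change MvPolynomial.aeval x (MvPolynomial.C y) = y
    simp
  obtain ⟨hFm, hFd⟩ := fam_monic g f φ c hm hd
  refine ⟨(fam g f φ c).map η, hFm.map η, ?_, ?_, eS, ?_, ?_⟩
  · rw [hFm.natDegree_map, hFd]
  · have h1 := congrArg (Polynomial.map η) hUV
    rw [Polynomial.map_add, Polynomial.map_mul, Polynomial.map_mul, map_C, ← derivative_map] at h1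
    have hηd : η d ≠ 0 := by
      intro h2
      apply hxΔ
      rw [hΔ, map_mul]
      have h3 : MvPolynomial.aeval x d' = η d := by rw [← hd']; rfl
      rw [h3, h2, zero_mul]
    refine ⟨C (η d)⁻¹ * U.map η, C (η d)⁻¹ * V.map η, ?_⟩
    have h4 : (C (η d)⁻¹ * C (η d) : k[X]) = 1 := by
      rw [← C_mul, inv_mul_cancel₀ hηd, C_1]
    linear_combination C (η d)⁻¹ * h1 + h4
  · have h1 := Fr_iterate_map p (g + 1) (fam g f φ c) η (φ ∘ eS) (g + 1)
    rw [hb] at h1
    have h2 : (η ∘ (φ ∘ eS) : Fin (g + 1) → k) = eS := by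
      funext i; exact hηφ (eS i)
    rw [h2] at h1
    rw [h1]
    funext i; simp
  · have h2 : (η ∘ (φ ∘ eS) : Fin (g + 1) → k) = eS := by
      funext i; exact hηφ (eS i)
    have h1 := cycDet_map p (g + 1) (fam g f φ c) η (φ ∘ eS)
    rw [h2] at h1
    rw [h1, ← hcdet]
    intro h3
    apply hxΔ
    rw [hΔ, map_mul]
    have h4 : MvPolynomial.aeval x (cycDet p (g + 1) Φ (CP ∘ eS)) = 0 := h3
    rw [h4, mul_zero]

end

end Pool.Agent.H19.PR
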