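import Pool.Agent.H19.PR.Alpha

/-! # Moving a good branch point to zero -/

set_option autoImplicit false

namespace Pool.Agent.H19.PR

open Polynomial

noncomputable section

variable {k : Type*} [Field k]

theorem eq_zero_of_X_pow_mul (N : ℕ) (z E : k[X]) (h : X ^ N * z = E)
    (hE : E.degree < (N : WithBot ℕ)) : z = 0 := by
  by_contra hz
  rw [← h, degree_mul, degree_X_pow, degree_eq_natDegree hz] at hE
  have : N + z.natDegree < N := by exact_mod_cast hE
  omega

theorem dvd_of_roots [IsAlgClosed k] (f α : k[X]) (hs : f.Separable)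
    (h : ∀ r, f.eval r = 0 → α.eval r = 0) : f ∣ α := by
  by_cases hα : α = 0
  · rw [hα]; exact dvd_zero f
  have hf := hs.ne_zero
  have h1 : f.roots ≤ α.roots := by
    rw [Multiset.le_iff_subset (nodup_roots hs)]
    intro r hr
    rw [mem_roots hα]
    exact h r ((mem_roots hf).1 hr)
  have h2 : (f.roots.map fun a => X - C a).prod ∣ α :=
    (Multiset.prod_X_sub_C_dvd_iff_le_roots hα _).2 h1
  have h3 := (IsAlgClosed.splits f).eq_prod_roots
  rw [h3]
  exact (isUnit_C.2 (isUnit_iff_ne_zero.2 (leadingCoeff_ne_zero.2 hf))).mul_left_dvd.2 h2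

theorem alpha_eval (p g : ℕ) [Fact p.Prime] [CharP k p] (f : k[X]) (w : Fin g → k)
    (α B q : k[X]) (r : k) (hg : 0 < g)
    (hG : f ^ ((p - 1) / 2) * hat g w ^ p = X ^ (p * g) * α + B)
    (hB : B.degree < (((p - 1) * g : ℕ) : WithBot ℕ))
    (hq : f ^ ((p - 1) / 2) = (X - C r) * q) : α.eval r = Lam p g w q := by
  have hp := (Fact.out : p.Prime)
  set N := p * g with hN
  have hN0 : 0 < N := Nat.mul_pos hp.pos hg
  set Q := q * hat g w ^ p with hQ
  have hm : (X ^ N : k[X]).Monic := monic_X_pow _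
  set A1 := Q /ₘ X ^ N with hA1
  set B1 := Q %ₘ X ^ N with hB1
  have hdiv : Q = B1 + X ^ N * A1 := (modByMonic_add_div Q _).symm
  have hB1d : B1.degree < (N : WithBot ℕ) := by
    have := degree_modByMonic_lt Q hm
    rwa [degree_X_pow] at this
  have hB1c : ∀ m, N ≤ m → B1.coeff m = 0 := (degree_lt_iff_coeff_zero _ _).1 hB1d
  set c := (X * B1).coeff N with hc
  have hL : Lam p g w q = c := by
    rw [Lam_eq_coeff, show X * q * hat g w ^ p = X * Q by rw [hQ]; ring, hdiv,
      show X * (B1 + X ^ N * A1) = X * B1 + (X * A1) * X ^ N by ring, coeff_add]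
    have h3 := coeff_mul_X_pow (X * A1) N 0
    rw [zero_add] at h3
    rw [h3, mul_coeff_zero, coeff_X_zero, zero_mul, add_zero]
  have hD : ((X - C r) * B1 - C c * X ^ N).degree < (N : WithBot ℕ) := by
    rw [degree_lt_iff_coeff_zero]
    intro m hmm
    obtain ⟨m', rfl⟩ : ∃ m', m = m' + 1 := ⟨m - 1, by omega⟩
    rw [sub_mul, coeff_sub, coeff_sub, coeff_X_mul, coeff_C_mul, hB1c _ hmm, mul_zero, sub_zero,
      coeff_C_mul, coeff_X_pow]
    by_cases h : m' + 1 = N
    · rw [if_pos h, mul_one, hc, ← h, coeff_X_mul, sub_self]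
    · rw [if_neg h, mul_zero, sub_zero]
      exact hB1c _ (by omega)
  have hz : α - (X - C r) * A1 - C c = 0 := by
    apply eq_zero_of_X_pow_mul N _ (((X - C r) * B1 - C c * X ^ N) - B)
    · have h1 : (X - C r) * Q = X ^ N * α + B := by rw [← hG, hq, hQ]; ring
      rw [hdiv] at h1
      linear_combination -h1
    · refine lt_of_le_of_lt (degree_sub_le _ _) (max_lt hD ?_)
      refine lt_of_lt_of_le hB ?_
      have : (p - 1) * g ≤ p * g := Nat.mul_le_mul_right g (Nat.sub_le p 1)
      exact_mod_cast this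
  have := congrArg (eval r) hz
  simp only [eval_sub, eval_mul, eval_X, eval_C, sub_self, zero_mul, sub_zero, eval_zero] at this
  rw [hL]
  exact sub_eq_zero.1 this

theorem translate_aux (p g : ℕ) [Fact p.Prime] [CharP k p] (hp2 : p ≠ 2)
    (f : k[X]) (hd : f.natDegree ≤ 2 * g + 2) (a : k) (e : Fin g → k)
    (he : (Fr p g f)^[g] e = 0) (hc : cycDet p g f e ≠ 0) :
    (Fr p g (f.comp (X + C a)))^[g] (tau g (-a) e) = 0 ∧
      cycDet p g (f.comp (X + C a)) (tau g (-a) e) ≠ 0 := by
  constructor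
  · rw [Fr_taylor_iterate p g hp2 f hd, he]
    funext j; simp [tau]
  · rw [cycDet_ne_zero_iff] at hc ⊢
    simp only [Fr_taylor_iterate p g hp2 f hd]
    let T : (Fin g → k) →ₗ[k] (Fin g → k) :=
      { toFun := tau g (-a), map_add' := tau_add g (-a), map_smul' := fun c w => tau_smul g (-a) c w }
    have hT : LinearMap.ker T = ⊥ := by
      rw [LinearMap.ker_eq_bot]
      intro v w hvw
      have h1 : tau g (-a) v = tau g (-a) w := hvw
      rw [← tau_tau g a (-a) (add_neg_cancel a) v, h1, tau_tau g a (-a) (add_neg_cancel a) w]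
    exact hc.map' T hT

/-- After a translation `0` is a branch point at which the exact differential does not vanish. -/
theorem root_to_zero [IsAlgClosed k] (p g : ℕ) [Fact p.Prime] [CharP k p] (hp2 : p ≠ 2)
    (hg : 0 < g) (f : k[X]) (hf : Good p g f) : ∃ (F : k[X]) (e : Fin g → k), F.Monic ∧
      F.natDegree = 2 * g + 2 ∧ F.Separable ∧ F.coeff 0 = 0 ∧ (Fr p g F)^[g] e = 0 ∧
      cycDet p g F e ≠ 0 ∧ rho p g F ((Fr p g F)^[g - 1] e) ≠ 0 := by
  have hp := (Fact.out : p.Prime)
  obtain ⟨hm, hd, hs, e, he, hc⟩ := hf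
  have h2n := half_mul p hp2
  have hp1 := hp.one_lt
  set w := (Fr p g f)^[g - 1] e with hw
  have hw0 : w ≠ 0 := ((cycDet_ne_zero_iff p g f e).1 hc).ne_zero ⟨g - 1, by omega⟩
  have hFw : Fr p g f w = 0 := by
    rw [hw, ← Function.iterate_succ_apply' (Fr p g f), Nat.succ_eq_add_one, Nat.sub_add_cancel hg]
    exact he
  obtain ⟨α, B, hG, hB⟩ := exists_alpha p g hp2 f w hg hFw
  obtain ⟨hu, hud⟩ := exact_form p g hp2 f w hg hd hs hw0 α B hG hB
  obtain ⟨r, hr, hαr⟩ : ∃ r, f.eval r = 0 ∧ α.eval r ≠ 0 := by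
    by_contra hcon
    push Not at hcon
    have h1 : f ∣ α := dvd_of_roots f α hs hcon
    have h2 : f ∣ derivative α * f - C (((p - 1) / 2 : ℕ) : k) * α * derivative f := by
      refine dvd_sub (Dvd.intro_left _ rfl) ?_
      exact Dvd.dvd.mul_right (Dvd.dvd.mul_left h1 _) _
    have h3 := natDegree_le_of_dvd h2 hu
    omega
  have hroot : (X - C r) ∣ f := dvd_iff_isRoot.2 hr
  obtain ⟨q, hq⟩ : (X - C r) ∣ f ^ ((p - 1) / 2) := dvd_pow hroot (by omega)
  have hα := alpha_eval p g f w α B q r hg hG hB hq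
  obtain ⟨h1, h2⟩ := translate_aux p g hp2 f hd.le r e he hc
  refine ⟨f.comp (X + C r), tau g (-r) e, hm.comp_X_add_C r, ?_, ?_, ?_, h1, h2, ?_⟩
  · rw [natDegree_comp, natDegree_X_add_C, mul_one, hd]
  · obtain ⟨u, v, huv⟩ := hs
    refine ⟨u.comp (X + C r), v.comp (X + C r), ?_⟩
    rw [derivative_comp]
    have := congrArg (fun q : k[X] => q.comp (X + C r)) huv
    simpa [mul_comp, add_comp] using this
  · rw [coeff_zero_eq_eval_zero, eval_comp]; simpa using hr
  · rw [Fr_taylor_iterate p g hp2 f hd.le, ← hw]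
    have hq' : f.comp (X + C r) ^ ((p - 1) / 2) = X * q.comp (X + C r) := by
      rw [← pow_comp, hq, mul_comp, sub_comp, X_comp, C_comp, add_sub_cancel_right]
    have h3 : rho p g (f.comp (X + C r)) (tau g (-r) w) =
        Lam p g (tau g (-r) w) (q.comp (X + C r)) := by
      unfold rho Lam
      rw [hq']
    have hqne : q ≠ 0 := by
      rintro rfl
      rw [mul_zero] at hq
      exact pow_ne_zero _ hs.ne_zero hq
    have hqd : q.natDegree < p * g + (p - 1) := by
      have h4 := congrArg natDegree hq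
      rw [natDegree_pow, hd, natDegree_mul (X_sub_C_ne_zero r) hqne, natDegree_X_sub_C] at h4
      set n := (p - 1) / 2 with hn
      have hpn : p = 2 * n + 1 := by omega
      rw [hpn]
      have h5 : (2 * n + 1) * g + (2 * n + 1 - 1) = n * (2 * g + 2) + g := by
        rw [Nat.add_sub_cancel]; ring
      omega
    rw [h3, Lam_taylor p g r _ q hqd, tau_tau g r (-r) (add_neg_cancel r), ← hα]
    exact hαr

/-- The differential is surjective. -/
theorem surj_dual (p g : ℕ) [Fact p.Prime] [CharP k p] (hp2 : p ≠ 2) (hg : 0 < g) (f h : k[X])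
    (hfh : f = X * h) (hd : f.natDegree = 2 * g + 2) (hs : f.Separable) (w : Fin g → k)
    (hw : w ≠ 0) (hF : Fr p g f w = 0) (u : Fin g → k)
    (hu : ∀ l : ℕ, l < 2 * g + 1 →
      ∑ i, u i * Lam p g w (X ^ (i : ℕ) * f ^ ((p - 1) / 2 - 1) * X ^ (l + 1)) = 0) : u = 0 := by
  have hp := (Fact.out : p.Prime)
  have h2n := half_mul p hp2
  have hp1 := hp.one_lt
  obtain ⟨α, B, hG, hB⟩ := exists_alpha p g hp2 f w hg hF
  obtain ⟨hu0, hud⟩ := exact_form p g hp2 f w hg hd hs hw α B hG hB
  set n := (p - 1) / 2 with hn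
  have hn0 : 0 < n := by omega
  set N := p * g with hN
  have hf0 := hs.ne_zero
  have hh0 : h ≠ 0 := by rintro rfl; exact hf0 (by rw [hfh, mul_zero])
  have hhd : h.natDegree = 2 * g + 1 := by
    rw [hfh, natDegree_mul X_ne_zero hh0, natDegree_X] at hd
    omega
  set U : k[X] := ∑ i : Fin g, C (u i) * X ^ (i : ℕ) with hU
  have hUd : U.natDegree ≤ g - 1 := by
    refine natDegree_sum_le_of_forall_le _ _ fun j _ => ?_
    refine (natDegree_C_mul_X_pow_le _ _).trans (by have := j.2; omega)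
  set S := X * U * f ^ (n - 1) * hat g w ^ p with hS
  have hcoef : ∀ l, l < 2 * g + 1 → (S * X ^ (l + 1)).coeff N = 0 := by
    intro l hl
    have h1 := hu l hl
    simp only [Lam_eq_coeff] at h1
    rw [← h1, hS, hU, ← hN]
    have h2 : (X * (∑ i : Fin g, C (u i) * X ^ (i : ℕ)) * f ^ (n - 1) * hat g w ^ p *
        X ^ (l + 1) : k[X]) = ∑ i : Fin g, C (u i) *
          (X * (X ^ (i : ℕ) * f ^ (n - 1) * X ^ (l + 1)) * hat g w ^ p) := by
      rw [Finset.mul_sum, Finset.sum_mul, Finset.sum_mul, Finset.sum_mul]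
      refine Finset.sum_congr rfl fun i _ => by ring
    rw [h2, finsetSum_coeff]
    exact Finset.sum_congr rfl fun i _ => coeff_C_mul _
  have hm : (X ^ N : k[X]).Monic := monic_X_pow _
  set a := S /ₘ X ^ N with ha
  set b := S %ₘ X ^ N with hb
  have hdiv : S = b + X ^ N * a := (modByMonic_add_div S _).symm
  have hbd : b.degree < (N : WithBot ℕ) := by
    have := degree_modByMonic_lt S hm
    rwa [degree_X_pow] at this
  have hbc : ∀ m, N ≤ m → b.coeff m = 0 := (degree_lt_iff_coeff_zero _ _).1 hbd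
  -- the top coefficients of `b` vanish
  have hbtop : ∀ m, N ≤ m + (2 * g + 1) → b.coeff m = 0 := by
    intro m hmm
    by_cases hmN : N ≤ m
    · exact hbc m hmN
    · obtain ⟨l, hl⟩ : ∃ l, m + (l + 1) = N := ⟨N - m - 1, by omega⟩
      have h1 := hcoef l (by omega)
      rw [← hl, coeff_mul_X_pow, hdiv, coeff_add, coeff_X_pow_mul', if_neg (by omega),
        add_zero] at h1
      exact h1
  have hmul : h * S = U * (f ^ n * hat g w ^ p) := by
    have h3 : f ^ n = f ^ (n - 1) * (X * h) := by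
      rw [← hfh, ← pow_succ, Nat.sub_add_cancel hn0]
    rw [hS, h3]; ring
  have hbh : (h * b).degree < (N : WithBot ℕ) := by
    by_cases hb0 : b = 0
    · rw [hb0, mul_zero, degree_zero]; exact WithBot.bot_lt_coe _
    have h4 : b.natDegree + (2 * g + 1) < N := by
      by_contra hcon
      exact (leadingCoeff_ne_zero.2 hb0) (hbtop _ (not_lt.1 hcon))
    rw [← natDegree_lt_iff_degree_lt (mul_ne_zero hh0 hb0), natDegree_mul hh0 hb0]
    omega
  have hUB : (U * B).degree < (N : WithBot ℕ) := by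
    by_cases hUB0 : U * B = 0
    · rw [hUB0, degree_zero]; exact WithBot.bot_lt_coe _
    have hB0 : B ≠ 0 := right_ne_zero_of_mul hUB0
    have h4 := (natDegree_lt_iff_degree_lt hB0).2 hB
    rw [← natDegree_lt_iff_degree_lt hUB0]
    refine lt_of_le_of_lt natDegree_mul_le ?_
    have h9 : (p - 1) * g + g = N := by
      rw [← Nat.succ_mul, hN]; congr 1; omega
    omega
  have hz : a * h - U * α = 0 := by
    apply eq_zero_of_X_pow_mul N _ (U * B - h * b)
    · rw [hG, hdiv] at hmul
      linear_combination hmul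
    · exact lt_of_le_of_lt (degree_sub_le _ _) (max_lt hUB hbh)
  have hdvd : h ∣ U * α := ⟨a, by rw [← sub_eq_zero.1 hz]; ring⟩
  have hhf : h ∣ f := ⟨X, by rw [hfh]; ring⟩
  have hdvd2 : h ∣ U * (derivative α * f - C (n : k) * α * derivative f) := by
    have : U * (derivative α * f - C (n : k) * α * derivative f) =
        f * (U * derivative α) - (U * α) * (C (n : k) * derivative f) := by ring
    rw [this]
    exact dvd_sub (hhf.mul_right _) (hdvd.mul_right _)
  have hU0 : U = 0 := by
    by_contra hne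
    have h5 := natDegree_le_of_dvd hdvd2 (mul_ne_zero hne hu0)
    rw [natDegree_mul hne hu0] at h5
    omega
  funext i
  have h6 := congrArg (fun q : k[X] => q.coeff (i : ℕ)) hU0
  simp only [hU, finsetSum_coeff, coeff_C_mul, coeff_X_pow, coeff_zero] at h6
  rw [Finset.sum_eq_single i] at h6
  · simpa using h6
  · intro j _ hj
    rw [if_neg (fun h => hj (Fin.ext h.symm)), mul_zero]
  · intro h; exact absurd (Finset.mem_univ _) h

end

end Pool.Agent.H19.PR
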