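import Pool.Agent.H19.PR.Double
import Pool.Agent.H19.PR.Krull

/-! # The induction step -/

set_option autoImplicit false

namespace Pool.Agent.H19.PR

open Polynomial

noncomputable section

universe u

theorem bezout_clear {R : Type u} [CommRing R] [IsDomain R] (F : R[X])
    (h : (F.map (algebraMap R (FractionRing R))).Separable) :
    ∃ (d : R) (U V : R[X]), d ≠ 0 ∧ U * F + V * derivative F = C d := by
  obtain ⟨u, v, huv⟩ := h
  obtain ⟨b1, hm1, hb1⟩ := IsLocalization.integerNormalization_spec (nonZeroDivisors R) u
  obtain ⟨b2, hm2, hb2⟩ := IsLocalization.integerNormalization_spec (nonZeroDivisors R) v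
  refine ⟨b1 * b2, C b2 * IsLocalization.integerNormalization (nonZeroDivisors R) u,
    C b1 * IsLocalization.integerNormalization (nonZeroDivisors R) v,
    mul_ne_zero (nonZeroDivisors.ne_zero hm1) (nonZeroDivisors.ne_zero hm2), ?_⟩
  apply Polynomial.map_injective _ (IsFractionRing.injective R (FractionRing R))
  rw [Polynomial.map_add, Polynomial.map_mul, Polynomial.map_mul, Polynomial.map_mul,
    Polynomial.map_mul, hb1, hb2, map_C, map_C, map_C, ← derivative_map, Algebra.smul_def,
    Algebra.smul_def, map_mul, C_mul]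
  rw [IsScalarTower.algebraMap_apply R (FractionRing R) (FractionRing R)[X],
    IsScalarTower.algebraMap_apply R (FractionRing R) (FractionRing R)[X],
    Polynomial.algebraMap_eq]
  linear_combination (C (algebraMap R (FractionRing R) b1) * C (algebraMap R (FractionRing R) b2)) * huv

variable {k : Type u} [Field k]

theorem fam_zero (g : ℕ) (f : k[X]) (φ : k →+* k) (hφ : ∀ x, φ x = x)
    (c : Fin (2 * g + 1 + 3) → k) (hc : ∀ i, c i = 0) : fam g f φ c = X ^ 2 * f := by
  unfold fam
  have h1 : φ = RingHom.id k := RingHom.ext hφ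
  simp [hc, h1]

/-- the first order part of a polynomial -/
theorem dual_eval {N : ℕ} (v : Fin N → k) (q : MvPolynomial (Fin N) k) :
    MvPolynomial.eval₂ (algebraMap k (DualNumber k))
      (fun i => DualNumber.eps * algebraMap k (DualNumber k) (v i)) q =
    algebraMap k (DualNumber k) (MvPolynomial.constantCoeff q) + DualNumber.eps *
      algebraMap k (DualNumber k)
        (∑ i, v i * MvPolynomial.coeff (Finsupp.single i 1) q) := by
  classical
  induction q using MvPolynomial.induction_on with
  | C a =>
    rw [MvPolynomial.eval₂_C, MvPolynomial.constantCoeff_C]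
    have : ∀ i : Fin N, MvPolynomial.coeff (Finsupp.single i 1) (MvPolynomial.C a) = (0 : k) := by
      intro i
      rw [MvPolynomial.coeff_C, if_neg]
      intro h
      exact one_ne_zero (Finsupp.single_eq_zero.1 h.symm)
    simp [this]
  | add p q hp hq =>
    rw [MvPolynomial.eval₂_add, hp, hq]
    simp only [map_add, MvPolynomial.coeff_add, mul_add, Finset.sum_add_distrib]
    ring
  | mul_X p j hp =>
    rw [MvPolynomial.eval₂_mul, hp, MvPolynomial.eval₂_X]
    have h1 : ∀ i : Fin N, MvPolynomial.coeff (Finsupp.single i 1) (p * MvPolynomial.X j) =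
        if i = j then MvPolynomial.constantCoeff p else 0 := by
      intro i
      rw [MvPolynomial.coeff_mul_X']
      by_cases h : i = j
      · subst h
        rw [if_pos (by simp), if_pos rfl, tsub_self, MvPolynomial.constantCoeff_eq]
      · have hns : j ∉ (Finsupp.single i 1 : Fin N →₀ ℕ).support := by
          simp
          exact fun h' => h h'.symm
        rw [if_neg hns, if_neg h]
    simp only [h1, mul_ite, mul_zero, Finset.sum_ite_eq', Finset.mem_univ, if_true, map_mul,
      MvPolynomial.constantCoeff_X, map_zero, zero_add]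
    linear_combination (algebraMap k (DualNumber k) (∑ i, v i *
      MvPolynomial.coeff (Finsupp.single i 1) p) * algebraMap k (DualNumber k) (v j)) *
      (DualNumber.eps_mul_eps (R := k))

theorem eps_inj (x : k) (h : DualNumber.eps * algebraMap k (DualNumber k) x = 0) : x = 0 := by
  have h1 := congrArg TrivSqZeroExt.snd h
  simpa [TrivSqZeroExt.algebraMap_eq_inl, TrivSqZeroExt.snd_mul] using h1

/-- The ideal of the deformations with `c₀ = c₁ = c₂ = 0` has no tangent vectors. -/
theorem no_tangent (p g : ℕ) [Fact p.Prime] [CharP k p] (hp2 : p ≠ 2) (hg : 0 < g) (f : k[X])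
    (e : Fin g → k) (M : (Fin (2 * g + 1) → k) →ₗ[k] (Fin (g + 1) → k))
    (hM : ∀ c, Ldef p g f ((Fr p g f)^[g - 1] e) c = 0 → M c = 0 → c = 0)
    {R : Type u} [CommRing R] (φ : k →+* R) (c : Fin (2 * g + 1 + 3) → R)
    (h0 : c 0 = 0) (h1 : c 1 = 0) (h2 : c 2 = 0)
    (hnil : (Fr p g (f.map φ + X * tailPoly g c))^[g] (φ ∘ e) = 0)
    (hℓ : ∀ j, ∑ l : Fin (2 * g + 1), φ (M (Pi.single l 1) j) * c l.succ.succ.succ = 0)
    (θ : R →+* DualNumber k) (hθφ : θ.comp φ = algebraMap k (DualNumber k))
    (v : Fin (2 * g + 1 + 3) → k)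
    (hθc : ∀ i, θ (c i) = DualNumber.eps * algebraMap k (DualNumber k) (v i)) : v = 0 := by
  have hz : ∀ i, c i = 0 → v i = 0 := by
    intro i hi
    apply eps_inj
    rw [← hθc, hi, map_zero]
  have hv' : (fun l : Fin (2 * g + 1) => v l.succ.succ.succ) = 0 := by
    apply hM
    · have h3 := Fr_iterate_map p g (f.map φ + X * tailPoly g c) θ (φ ∘ e) g
      rw [hnil] at h3
      have h4 : (f.map φ + X * tailPoly g c).map θ = f.map (algebraMap k (DualNumber k)) +
          C DualNumber.eps * (X * ∑ l : Fin (2 * g + 1), C (v l.succ.succ.succ) *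
            X ^ (l : ℕ)).map (algebraMap k (DualNumber k)) := by
        have hS : (tailPoly g c).map θ = C DualNumber.eps *
            (∑ l : Fin (2 * g + 1), C (v l.succ.succ.succ) * X ^ (l : ℕ)).map
              (algebraMap k (DualNumber k)) := by
          unfold tailPoly
          rw [Polynomial.map_sum, Polynomial.map_sum, Finset.mul_sum]
          refine Finset.sum_congr rfl fun l _ => ?_
          rw [Polynomial.map_mul, Polynomial.map_pow, map_X, map_C, hθc, Polynomial.map_mul,
            Polynomial.map_pow, map_X, map_C, C_mul, mul_assoc]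
        rw [Polynomial.map_add, Polynomial.map_map, hθφ, Polynomial.map_mul, map_X, hS,
          Polynomial.map_mul, map_X]
        ring
      have h5 : (θ ∘ φ ∘ e : Fin g → DualNumber k) = algebraMap k (DualNumber k) ∘ e := by
        rw [← hθφ]; rfl
      rw [h4, h5] at h3
      have h6 := first_order p g hp2 hg f _ e (h3.trans (by funext j; simp))
      funext i
      rw [Ldef_eq]
      exact h6 i
    · funext j
      apply eps_inj
      have h3 := congrArg θ (hℓ j)
      rw [map_sum, map_zero] at h3
      rw [← h3]
      have h4 : M (fun l : Fin (2 * g + 1) => v l.succ.succ.succ) j =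
          ∑ l : Fin (2 * g + 1), M (Pi.single l 1) j * v l.succ.succ.succ := by
        conv_lhs => rw [pi_eq_sum_univ' (fun l : Fin (2 * g + 1) => v l.succ.succ.succ), map_sum]
        rw [Finset.sum_apply]
        refine Finset.sum_congr rfl fun l _ => ?_
        rw [map_smul, Pi.smul_apply, smul_eq_mul, mul_comm]
      rw [h4, map_sum, Finset.mul_sum]
      refine Finset.sum_congr rfl fun l _ => ?_
      rw [map_mul, map_mul, hθc, ← RingHom.comp_apply θ φ, hθφ]
      ring
  funext i
  refine Fin.cases (hz 0 h0) (fun i => ?_) i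
  refine Fin.cases (hz 1 h1) (fun i => ?_) i
  refine Fin.cases (hz 2 h2) (fun i => ?_) i
  exact congrFun hv' i

end

end Pool.Agent.H19.PR
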