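import Pool.Agent.H19.PR.Root

/-! # The tangent space -/

set_option autoImplicit false

namespace Pool.Agent.H19.PR

open Polynomial

noncomputable section

variable {k : Type*} [Field k]

theorem sq_zero_pow {A : Type*} [CommRing A] (a b e : A) (he : e * e = 0) (n : ℕ) :
    (a + e * b) ^ n = a ^ n + e * ((n : A) * a ^ (n - 1) * b) := by
  induction n with
  | zero => simp
  | succ n ih =>
    rw [pow_succ, ih]
    rcases n with _ | n
    · simp
    · simp only [Nat.add_sub_cancel]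
      push_cast
      linear_combination ((n + 1 : A) * a ^ n * b * b) * he

/-- The linear map on first order deformations. -/
def Ldef (p g : ℕ) (f : k[X]) (w : Fin g → k) : (Fin (2 * g + 1) → k) →ₗ[k] (Fin g → k) where
  toFun c := fun i => ∑ l : Fin (2 * g + 1), c l *
    Lam p g w (X ^ (i : ℕ) * f ^ ((p - 1) / 2 - 1) * X ^ ((l : ℕ) + 1))
  map_add' c d := by
    funext i
    simp only [Pi.add_apply, add_mul, Finset.sum_add_distrib]
  map_smul' r c := by
    funext i
    simp only [Pi.smul_apply, smul_eq_mul, Finset.mul_sum, RingHom.id_apply]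
    exact Finset.sum_congr rfl fun l _ => by ring

theorem Ldef_eq (p g : ℕ) (f : k[X]) (w : Fin g → k) (c : Fin (2 * g + 1) → k) (i : Fin g) :
    Ldef p g f w c i = Lam p g w (X ^ (i : ℕ) * f ^ ((p - 1) / 2 - 1) *
      (X * ∑ l : Fin (2 * g + 1), C (c l) * X ^ (l : ℕ))) := by
  have h1 : (X ^ (i : ℕ) * f ^ ((p - 1) / 2 - 1) *
      (X * ∑ l : Fin (2 * g + 1), C (c l) * X ^ (l : ℕ)) : k[X]) =
      ∑ l : Fin (2 * g + 1), C (c l) * (X ^ (i : ℕ) * f ^ ((p - 1) / 2 - 1) *
        X ^ ((l : ℕ) + 1)) := by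
    rw [Finset.mul_sum, Finset.mul_sum]
    exact Finset.sum_congr rfl fun l _ => by ring
  rw [h1, Lam_sum]
  change (∑ l : Fin (2 * g + 1), c l * Lam p g w (X ^ (i : ℕ) * f ^ ((p - 1) / 2 - 1) *
    X ^ ((l : ℕ) + 1))) = _
  exact Finset.sum_congr rfl fun l _ => (Lam_C_mul p g w _ _).symm

theorem exists_complement (p g : ℕ) [Fact p.Prime] [CharP k p] (hp2 : p ≠ 2) (hg : 0 < g)
    (f h : k[X]) (hfh : f = X * h) (hd : f.natDegree = 2 * g + 2) (hs : f.Separable)
    (w : Fin g → k) (hw : w ≠ 0) (hF : Fr p g f w = 0) :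
    ∃ M : (Fin (2 * g + 1) → k) →ₗ[k] (Fin (g + 1) → k),
      ∀ c, Ldef p g f w c = 0 → M c = 0 → c = 0 := by
  classical
  set L := Ldef p g f w with hL
  have hrange : LinearMap.range L = ⊤ := by
    by_contra hne
    obtain ⟨φ, hφ, hker⟩ := Submodule.exists_le_ker_of_lt_top _ (lt_top_iff_ne_top.2 hne)
    apply hφ
    have hu := surj_dual p g hp2 hg f h hfh hd hs w hw hF (fun i => φ (Pi.single i 1)) (by
      intro l hl
      have h1 : L (Pi.single ⟨l, hl⟩ 1) ∈ LinearMap.range L := ⟨_, rfl⟩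
      have h2 : φ (L (Pi.single ⟨l, hl⟩ 1)) = 0 := hker h1
      rw [← h2, pi_eq_sum_univ' (L _), map_sum]
      refine Finset.sum_congr rfl fun i _ => ?_
      rw [map_smul, smul_eq_mul, mul_comm]
      congr 1
      change _ = ∑ l' : Fin (2 * g + 1), (Pi.single (⟨l, hl⟩ : Fin (2 * g + 1)) (1 : k) :
        Fin (2 * g + 1) → k) l' * _
      rw [Finset.sum_eq_single (⟨l, hl⟩ : Fin (2 * g + 1))]
      · simp
      · intro j _ hj
        rw [Pi.single_eq_of_ne hj, zero_mul]
      · intro h; exact absurd (Finset.mem_univ _) h)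
    apply LinearMap.pi_ext'
    intro i
    ext
    simpa using congrFun hu i
  have hfin : Module.finrank k (LinearMap.ker L) = g + 1 := by
    have h1 := LinearMap.finrank_range_add_finrank_ker L
    rw [hrange, finrank_top] at h1
    simp only [Module.finrank_fintype_fun_eq_card, Fintype.card_fin] at h1
    omega
  have hfin2 : Module.finrank k (LinearMap.ker L) = Module.finrank k (Fin (g + 1) → k) := by
    rw [hfin]; simp
  let E : LinearMap.ker L ≃ₗ[k] (Fin (g + 1) → k) := LinearEquiv.ofFinrankEq _ _ hfin2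
  obtain ⟨M, hM⟩ := LinearMap.exists_extend (E : LinearMap.ker L →ₗ[k] (Fin (g + 1) → k))
  refine ⟨M, fun c hc hMc => ?_⟩
  have h1 : M c = E ⟨c, hc⟩ := by
    have := LinearMap.congr_fun hM ⟨c, hc⟩
    simpa using this
  rw [hMc] at h1
  have h2 : (⟨c, hc⟩ : LinearMap.ker L) = 0 := E.injective (by rw [← h1, map_zero])
  exact congrArg Subtype.val h2

open TrivSqZeroExt in
theorem dual_pow (p : ℕ) [Fact p.Prime] [CharP k p] (z : DualNumber k) :
    z ^ p = algebraMap k (DualNumber k) (TrivSqZeroExt.fst z ^ p) := by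
  have hp := (Fact.out : p.Prime)
  have h1 : z = algebraMap k (DualNumber k) (TrivSqZeroExt.fst z) +
      DualNumber.eps * algebraMap k (DualNumber k) (TrivSqZeroExt.snd z) := by
    ext <;> simp [TrivSqZeroExt.algebraMap_eq_inl]
  conv_lhs => rw [h1]
  rw [sq_zero_pow _ _ _ DualNumber.eps_mul_eps]
  have h2 : ((p : ℕ) : DualNumber k) = 0 := by
    have := map_natCast (algebraMap k (DualNumber k)) p
    rw [← this, CharP.cast_eq_zero k p, map_zero]
  rw [h2, map_pow]
  simp

/-- First order deformations. -/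
theorem first_order (p g : ℕ) [Fact p.Prime] [CharP k p] (hp2 : p ≠ 2) (hg : 0 < g) (f δ : k[X])
    (e : Fin g → k)
    (h : (Fr p g (f.map (algebraMap k (DualNumber k)) +
      C DualNumber.eps * δ.map (algebraMap k (DualNumber k))))^[g]
        (algebraMap k (DualNumber k) ∘ e) = 0) (i : Fin g) :
    Lam p g ((Fr p g f)^[g - 1] e) (X ^ (i : ℕ) * f ^ ((p - 1) / 2 - 1) * δ) = 0 := by
  have hp := (Fact.out : p.Prime)
  set φ := algebraMap k (DualNumber k) with hφ
  set F1 := f.map φ + C DualNumber.eps * δ.map φ with hF1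
  obtain ⟨m, rfl⟩ : ∃ m, g = m + 1 := ⟨g - 1, by omega⟩
  rw [Function.iterate_succ_apply'] at h
  rw [Nat.add_sub_cancel]
  set y := (Fr p (m + 1) F1)^[m] (φ ∘ e) with hy
  let fst : DualNumber k →+* k := (TrivSqZeroExt.fstHom k k k).toRingHom
  have hfst : ∀ z, fst z = TrivSqZeroExt.fst z := fun z => rfl
  have hF1f : F1.map fst = f := by
    rw [hF1, Polynomial.map_add, Polynomial.map_map, Polynomial.map_mul, map_C]
    have h1 : fst.comp φ = RingHom.id k := by
      ext z; simp [hφ, hfst, TrivSqZeroExt.algebraMap_eq_inl]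
    have h2 : fst DualNumber.eps = 0 := by rw [hfst]; simp
    rw [h1, h2, Polynomial.map_id]; simp
  have hyw : fst ∘ y = (Fr p (m + 1) f)^[m] e := by
    rw [hy, ← Fr_iterate_map, hF1f]
    congr 1
  have hi := congrFun h i
  simp only [Fr, Pi.zero_apply] at hi
  have hhw : ∀ i j : Fin (m + 1), hasseWitt p (m + 1) F1 i j =
      φ ((X ^ ((i : ℕ) + 1) * f ^ ((p - 1) / 2)).coeff (p * ((j : ℕ) + 1))) +
      DualNumber.eps * φ ((((p - 1) / 2 : ℕ) : k) *
        (X ^ ((i : ℕ) + 1) * (f ^ ((p - 1) / 2 - 1) * δ)).coeff (p * ((j : ℕ) + 1))) := by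
    intro i j
    unfold hasseWitt
    rw [hF1, sq_zero_pow _ _ _ (by rw [← C_mul, DualNumber.eps_mul_eps, C_0])]
    rw [mul_add, coeff_add]
    congr 1
    · rw [← coeff_map]; simp
    · rw [show (X ^ ((i : ℕ) + 1) * (C DualNumber.eps * (((((p - 1) / 2 : ℕ) :
        (DualNumber k)[X])) * f.map φ ^ ((p - 1) / 2 - 1) * δ.map φ)) : (DualNumber k)[X]) =
        C DualNumber.eps * ((C ((((p - 1) / 2 : ℕ) : k)) * (X ^ ((i : ℕ) + 1) *
          (f ^ ((p - 1) / 2 - 1) * δ))).map φ) by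
        simp only [Polynomial.map_mul, Polynomial.map_pow, map_X, map_natCast,
          Polynomial.map_natCast]
        ring]
      rw [coeff_C_mul, coeff_map, coeff_C_mul]
  simp only [hhw, dual_pow p, ← hfst] at hi
  have hsnd := congrArg TrivSqZeroExt.snd hi
  rw [TrivSqZeroExt.snd_sum] at hsnd
  have hterm : ∀ j : Fin (m + 1), TrivSqZeroExt.snd
      ((φ ((X ^ ((i : ℕ) + 1) * f ^ ((p - 1) / 2)).coeff (p * ((j : ℕ) + 1))) +
      DualNumber.eps * φ ((((p - 1) / 2 : ℕ) : k) *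
        (X ^ ((i : ℕ) + 1) * (f ^ ((p - 1) / 2 - 1) * δ)).coeff (p * ((j : ℕ) + 1)))) *
        φ (fst (y j) ^ p)) = (((p - 1) / 2 : ℕ) : k) *
        ((X ^ ((i : ℕ) + 1) * (f ^ ((p - 1) / 2 - 1) * δ)).coeff (p * ((j : ℕ) + 1)) *
          fst (y j) ^ p) := by
    intro j
    simp [hφ, TrivSqZeroExt.algebraMap_eq_inl, TrivSqZeroExt.snd_mul]
    ring
  rw [Finset.sum_congr rfl fun j _ => hterm j, ← Finset.mul_sum] at hsnd
  have hn : (((p - 1) / 2 : ℕ) : k) ≠ 0 := by
    rw [Ne, CharP.cast_eq_zero_iff k p]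
    intro h6
    have h2n := half_mul p hp2
    have := hp.one_lt
    have := Nat.le_of_dvd (by omega) h6
    omega
  have hres := (mul_eq_zero.1 (hsnd.trans (by simp))).resolve_left hn
  unfold Lam
  rw [← hyw]
  rw [← hres]
  refine Finset.sum_congr rfl fun j _ => ?_
  rw [show (X * (X ^ (i : ℕ) * f ^ ((p - 1) / 2 - 1) * δ) : k[X]) =
    X ^ ((i : ℕ) + 1) * (f ^ ((p - 1) / 2 - 1) * δ) by ring]
  rfl

end

end Pool.Agent.H19.PR
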