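import Pool.Agent.H19.PR.Defs

/-! # Translations -/

set_option autoImplicit false

namespace Pool.Agent.H19.PR

open Polynomial

noncomputable section

variable {R : Type*} [CommRing R]

/-- The functional `u ↦ w(C(u))^p`. -/
def Lam (p g : ℕ) (w : Fin g → R) (s : R[X]) : R :=
  ∑ j : Fin g, (X * s).coeff (p * ((j : ℕ) + 1)) * w j ^ p

theorem Fr_eq_Lam (p g : ℕ) (f : R[X]) (w : Fin g → R) (i : Fin g) :
    Fr p g f w i = Lam p g w (X ^ (i : ℕ) * f ^ ((p - 1) / 2)) := by
  unfold Fr Lam hasseWitt
  refine Finset.sum_congr rfl fun j _ => ?_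
  rw [pow_succ', mul_assoc]

theorem Lam_add (p g : ℕ) (w : Fin g → R) (s t : R[X]) :
    Lam p g w (s + t) = Lam p g w s + Lam p g w t := by
  simp only [Lam, mul_add, coeff_add, add_mul, Finset.sum_add_distrib]

theorem Lam_C_mul (p g : ℕ) (w : Fin g → R) (c : R) (s : R[X]) :
    Lam p g w (C c * s) = c * Lam p g w s := by
  simp only [Lam, Finset.mul_sum]
  refine Finset.sum_congr rfl fun j _ => ?_
  rw [show X * (C c * s) = C c * (X * s) by ring, coeff_C_mul, mul_assoc]

theorem Lam_sum (p g : ℕ) (w : Fin g → R) {ι : Type*} (t : Finset ι) (s : ι → R[X]) :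
    Lam p g w (∑ i ∈ t, s i) = ∑ i ∈ t, Lam p g w (s i) := by
  classical
  induction t using Finset.induction_on with
  | empty => simp [Lam]
  | insert a t ha ih => rw [Finset.sum_insert ha, Finset.sum_insert ha, Lam_add, ih]

/-- The substitution `x ↦ x + a` on functionals. -/
def tau (g : ℕ) (a : R) (w : Fin g → R) : Fin g → R :=
  fun j => ∑ i : Fin g, ((X + C a) ^ (j : ℕ)).coeff (i : ℕ) * w i

theorem coeff_key (p : ℕ) [Fact p.Prime] [CharP R p] (a : R) (q r j : ℕ) (hr : r < p) :
    (X * (X + C a) ^ (p * q + r)).coeff (p * (j + 1)) =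
      if r = p - 1 then ((X + C a) ^ q).coeff j ^ p else 0 := by
  have hp := (Fact.out : p.Prime)
  have h1 : (X + C a : R[X]) ^ (p * q) = expand R p ((X + C (a ^ p)) ^ q) := by
    rw [pow_mul, add_pow_char]
    simp [expand_X, expand_C, C_pow]
  have h2 : X * (X + C a : R[X]) ^ (p * q + r) =
      (X * (X + C a) ^ r) * expand R p ((X + C (a ^ p)) ^ q) := by
    rw [pow_add, h1]; ring
  have h3 : (X * (X + C a : R[X]) ^ (p * q + r)).coeff (p * (j + 1)) =
      (contract p (X * (X + C a) ^ (p * q + r))).coeff (j + 1) := by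
    rw [coeff_contract hp.ne_zero, mul_comm p (j + 1)]
  rw [h3, h2, contract_mul_expand hp.ne_zero]
  have h4 : contract p (X * (X + C a : R[X]) ^ r) = if r = p - 1 then X else 0 := by
    ext n
    rw [coeff_contract hp.ne_zero]
    rcases n with _ | n
    · simp; split_ifs <;> simp
    · rw [show (n + 1) * p = (n * p + (p - 1)) + 1 by
        have := hp.pos
        rw [add_mul, one_mul]; omega, coeff_X_mul]
      by_cases hn : n = 0
      · subst hn
        rw [zero_mul, zero_add]
        split_ifs with h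
        · subst h
          rw [coeff_X_one]
          have h5 := (monic_X_add_C a).pow (p - 1)
          have h6 : ((X + C a : R[X]) ^ (p - 1)).coeff (p - 1) = 1 := by
            nontriviality R
            have h7 : ((X + C a : R[X]) ^ (p - 1)).natDegree = p - 1 := by
              rw [(monic_X_add_C a).natDegree_pow, natDegree_X_add_C, mul_one]
            have h8 := h5.coeff_natDegree
            rwa [h7] at h8
          exact h6
        · rw [coeff_zero]
          apply coeff_eq_zero_of_natDegree_lt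
          have h7 : ((X + C a : R[X]) ^ r).natDegree ≤ r := by
            refine natDegree_pow_le.trans ?_
            have : (X + C a : R[X]).natDegree ≤ 1 := by
              rw [natDegree_add_C]; exact natDegree_X_le
            nlinarith
          omega
      · have h7 : ((X + C a : R[X]) ^ r).natDegree ≤ r := by
          refine natDegree_pow_le.trans ?_
          have : (X + C a : R[X]).natDegree ≤ 1 := by
              rw [natDegree_add_C]; exact natDegree_X_le
          nlinarith
        rw [coeff_eq_zero_of_natDegree_lt]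
        · split_ifs
          · rw [coeff_X, if_neg (by omega)]
          · simp
        · have : 1 ≤ n := Nat.one_le_iff_ne_zero.2 hn
          have : p ≤ n * p := Nat.le_mul_of_pos_left p this
          omega
  rw [h4]
  split_ifs with h
  · rw [coeff_X_mul]
    have h5 : (X + C (a ^ p) : R[X]) ^ q = ((X + C a) ^ q).map (frobenius R p) := by
      rw [Polynomial.map_pow, Polynomial.map_add, map_X, map_C, frobenius_def]
    rw [h5, coeff_map, frobenius_def]
  · simp

theorem Lam_X_add_C_pow (p g : ℕ) [Fact p.Prime] [CharP R p] (a : R) (w : Fin g → R) (m : ℕ)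
    (hm : m < p * g + (p - 1)) :
    Lam p g w ((X + C a) ^ m) = Lam p g (tau g a w) (X ^ m) := by
  have hp := (Fact.out : p.Prime)
  obtain ⟨q, r, hr, rfl⟩ : ∃ q r, r < p ∧ m = p * q + r :=
    ⟨m / p, m % p, Nat.mod_lt _ hp.pos, (Nat.div_add_mod m p).symm⟩
  have hR : ∀ j : ℕ, (X * X ^ (p * q + r) : R[X]).coeff (p * (j + 1)) =
      if r = p - 1 then (if j = q then 1 else 0) else 0 := by
    intro j
    have h := coeff_key p (0 : R) q r j hr
    rw [C_0, add_zero] at h
    rw [h]
    split_ifs with h1 h2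
    · rw [h2, coeff_X_pow_self, one_pow]
    · rw [coeff_X_pow, if_neg h2, zero_pow hp.ne_zero]
    · rfl
  unfold Lam
  simp only [coeff_key p a q r _ hr, hR]
  by_cases h : r = p - 1
  · simp only [if_pos h]
    have hq : q < g := by
      by_contra hq
      push Not at hq
      have : p * g ≤ p * q := Nat.mul_le_mul_left p hq
      omega
    rw [Finset.sum_eq_single (⟨q, hq⟩ : Fin g) (f := fun j : Fin g =>
      (if (j : ℕ) = q then (1 : R) else 0) * tau g a w j ^ p)]
    · simp only [if_true, one_mul, tau]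
      rw [sum_pow_char]
      exact Finset.sum_congr rfl fun j _ => by rw [mul_pow]
    · intro j _ hj
      rw [if_neg (fun h => hj (Fin.ext h)), zero_mul]
    · intro h; exact absurd (Finset.mem_univ _) h
  · simp [if_neg h]

theorem Lam_taylor (p g : ℕ) [Fact p.Prime] [CharP R p] (a : R) (w : Fin g → R) (s : R[X])
    (hs : s.natDegree < p * g + (p - 1)) :
    Lam p g w (s.comp (X + C a)) = Lam p g (tau g a w) s := by
  conv_lhs => rw [s.as_sum_range' _ hs]
  conv_rhs => rw [s.as_sum_range' _ hs]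
  rw [Polynomial.sum_comp, Lam_sum, Lam_sum]
  refine Finset.sum_congr rfl fun m hm => ?_
  rw [← C_mul_X_pow_eq_monomial, mul_comp, C_comp, X_pow_comp, Lam_C_mul, Lam_C_mul,
    Lam_X_add_C_pow p g a w m (Finset.mem_range.1 hm)]

theorem tau_tau (g : ℕ) (a b : R) (hab : a + b = 0) (w : Fin g → R) :
    tau g a (tau g b w) = w := by
  funext j
  have h1 : (X + C a : R[X]) ^ (j : ℕ) =
      ∑ i ∈ Finset.range g, monomial i (((X + C a) ^ (j : ℕ)).coeff i) := by
    apply as_sum_range'
    refine lt_of_le_of_lt natDegree_pow_le ?_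
    have : (X + C a : R[X]).natDegree ≤ 1 := by
      rw [natDegree_add_C]; exact natDegree_X_le
    have := j.2
    nlinarith
  have h2 : (∑ i ∈ Finset.range g, C (((X + C a : R[X]) ^ (j : ℕ)).coeff i) * (X + C b) ^ i) =
      X ^ (j : ℕ) := by
    have h3 := congrArg (fun q : R[X] => q.comp (X + C b)) h1
    simp only [Polynomial.sum_comp, monomial_comp, X_pow_comp, pow_comp, add_comp, X_comp,
      C_comp] at h3
    rw [← h3, add_assoc, ← C_add, add_comm b a, hab, C_0, add_zero]
  unfold tau
  calc ∑ i : Fin g, ((X + C a : R[X]) ^ (j : ℕ)).coeff (i : ℕ) *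
        ∑ l : Fin g, ((X + C b : R[X]) ^ (i : ℕ)).coeff (l : ℕ) * w l
      = ∑ l : Fin g, (∑ i ∈ Finset.range g, C (((X + C a : R[X]) ^ (j : ℕ)).coeff i) *
          (X + C b) ^ i).coeff (l : ℕ) * w l := by
        simp only [Finset.mul_sum]
        rw [Finset.sum_comm]
        refine Finset.sum_congr rfl fun l _ => ?_
        rw [finsetSum_coeff, Finset.sum_mul, Finset.sum_range]
        refine Finset.sum_congr rfl fun i _ => ?_
        rw [coeff_C_mul, mul_assoc]
    _ = w j := by
        rw [h2, Finset.sum_eq_single j]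
        · rw [coeff_X_pow_self, one_mul]
        · intro l _ hl
          rw [coeff_X_pow, if_neg (fun h => hl (Fin.ext h)), zero_mul]
        · intro h; exact absurd (Finset.mem_univ _) h

theorem tau_smul (g : ℕ) (a c : R) (w : Fin g → R) : tau g a (c • w) = c • tau g a w := by
  funext j
  simp only [tau, Pi.smul_apply, smul_eq_mul, Finset.mul_sum]
  exact Finset.sum_congr rfl fun i _ => by ring

theorem tau_add (g : ℕ) (a : R) (v w : Fin g → R) :
    tau g a (v + w) = tau g a v + tau g a w := by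
  funext j
  simp only [tau, Pi.add_apply, mul_add, Finset.sum_add_distrib]

theorem half_mul (p : ℕ) [Fact p.Prime] (hp2 : p ≠ 2) : (p - 1) / 2 * 2 = p - 1 := by
  have h := (Fact.out : p.Prime).eq_two_or_odd'.resolve_left hp2
  obtain ⟨m, hm⟩ := h
  omega

theorem deg_bound (p g : ℕ) [Fact p.Prime] (hp2 : p ≠ 2) (f : R[X])
    (hf : f.natDegree ≤ 2 * g + 2) (i : ℕ) (hi : i < g) (t : R[X]) (ht : t.natDegree ≤ 1) :
    (t ^ i * f ^ ((p - 1) / 2)).natDegree < p * g + (p - 1) := by
  have h2 := half_mul p hp2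
  have hp := (Fact.out : p.Prime).one_lt
  set n := (p - 1) / 2 with hn
  have hp' : p = 2 * n + 1 := by omega
  have h3 : (t ^ i).natDegree ≤ i := by
    refine natDegree_pow_le.trans ?_
    nlinarith
  have h4 : (f ^ n).natDegree ≤ n * (2 * g + 2) := natDegree_pow_le.trans
    (Nat.mul_le_mul_left n hf)
  refine lt_of_le_of_lt natDegree_mul_le ?_
  rw [hp']
  have h5 : (2 * n + 1) * g + (2 * n + 1 - 1) = n * (2 * g + 2) + g := by
    rw [Nat.add_sub_cancel]; ring
  omega

theorem Fr_taylor (p g : ℕ) [Fact p.Prime] [CharP R p] (hp2 : p ≠ 2) (f : R[X])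
    (hf : f.natDegree ≤ 2 * g + 2) (a : R) (w : Fin g → R) :
    Fr p g (f.comp (X + C a)) w = tau g (-a) (Fr p g f (tau g a w)) := by
  funext i
  have hd1 : (X - C a : R[X]).natDegree ≤ 1 := natDegree_X_sub_C_le a
  rw [Fr_eq_Lam]
  have h1 : (X ^ (i : ℕ) * f.comp (X + C a) ^ ((p - 1) / 2) : R[X]) =
      ((X - C a) ^ (i : ℕ) * f ^ ((p - 1) / 2)).comp (X + C a) := by
    simp [mul_comp, pow_comp, sub_comp, X_comp, C_comp]
  rw [h1, Lam_taylor p g a w _ (deg_bound p g hp2 f hf i i.2 _ hd1)]
  have h2 : (X - C a : R[X]) ^ (i : ℕ) =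
      ∑ l ∈ Finset.range g, monomial l (((X - C a) ^ (i : ℕ)).coeff l) := by
    apply as_sum_range'
    refine lt_of_le_of_lt natDegree_pow_le ?_
    have := i.2
    nlinarith
  conv_lhs => rw [h2]
  rw [Finset.sum_mul, Lam_sum]
  unfold tau
  rw [← Fin.sum_univ_eq_sum_range (fun l => Lam p g _ (monomial l
    (((X - C a : R[X]) ^ (i : ℕ)).coeff l) * f ^ ((p - 1) / 2)))]
  refine Finset.sum_congr rfl fun l _ => ?_
  rw [← C_mul_X_pow_eq_monomial, mul_assoc, Lam_C_mul, Fr_eq_Lam, C_neg, ← sub_eq_add_neg]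

theorem Fr_taylor_iterate (p g : ℕ) [Fact p.Prime] [CharP R p] (hp2 : p ≠ 2) (f : R[X])
    (hf : f.natDegree ≤ 2 * g + 2) (a : R) (w : Fin g → R) (m : ℕ) :
    (Fr p g (f.comp (X + C a)))^[m] (tau g (-a) w) = tau g (-a) ((Fr p g f)^[m] w) := by
  induction m generalizing w with
  | zero => rfl
  | succ m ih =>
    rw [Function.iterate_succ_apply, Function.iterate_succ_apply, Fr_taylor p g hp2 f hf,
      tau_tau g a (-a) (add_neg_cancel a), ih]

theorem Good.translate {k : Type*} [Field k] (p g : ℕ) [Fact p.Prime] [CharP k p] (hp2 : p ≠ 2)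
    (f : k[X]) (a : k) (h : Good p g f) : Good p g (f.comp (X + C a)) := by
  obtain ⟨hm, hd, hs, e, he, hc⟩ := h
  refine ⟨hm.comp_X_add_C a, ?_, ?_, tau g (-a) e, ?_, ?_⟩
  · rw [natDegree_comp, natDegree_X_add_C, mul_one, hd]
  · obtain ⟨u, v, huv⟩ := hs
    refine ⟨u.comp (X + C a), v.comp (X + C a), ?_⟩
    rw [derivative_comp]
    have := congrArg (fun q : k[X] => q.comp (X + C a)) huv
    simpa [mul_comp, add_comp] using this
  · rw [Fr_taylor_iterate p g hp2 f hd.le, he]
    funext j; simp [tau]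
  · rw [cycDet_ne_zero_iff] at hc ⊢
    simp only [Fr_taylor_iterate p g hp2 f hd.le]
    let T : (Fin g → k) →ₗ[k] (Fin g → k) :=
      { toFun := tau g (-a), map_add' := tau_add g (-a), map_smul' := fun c w => tau_smul g (-a) c w }
    have hT : LinearMap.ker T = ⊥ := by
      rw [LinearMap.ker_eq_bot]
      intro v w hvw
      have h1 : tau g (-a) v = tau g (-a) w := hvw
      rw [← tau_tau g a (-a) (add_neg_cancel a) v, h1, tau_tau g a (-a) (add_neg_cancel a) w]
    exact hc.map' T hT

/-- A double root which is not a triple root gives a nonzero eigenvector. -/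
theorem not_nilpotent_of_double {k : Type*} [Field k] (p g : ℕ) [Fact p.Prime] [CharP k p]
    (hp2 : p ≠ 2) (hg : 0 < g) (s : k[X]) (a : k)
    (hd : ((X - C a) ^ 2 * s).natDegree ≤ 2 * g + 2) (hs : s.eval a ≠ 0)
    (hF : ∀ v : Fin g → k, (Fr p g ((X - C a) ^ 2 * s))^[g] v = 0) : False := by
  set f := (X - C a) ^ 2 * s with hf
  have hp := (Fact.out : p.Prime)
  set l0 : Fin g → k := fun j => if (j : ℕ) = 0 then 1 else 0 with hl0
  have hlam : ∀ t : k[X], Lam p g l0 t = (X * t).coeff p := by
    intro t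
    unfold Lam
    rw [Finset.sum_eq_single (⟨0, hg⟩ : Fin g)]
    · simp [hl0]
    · intro j _ hj
      rw [hl0]
      simp only
      rw [if_neg (fun h => hj (Fin.ext h)), zero_pow hp.ne_zero, mul_zero]
    · intro h; exact absurd (Finset.mem_univ _) h
  have hta : ∀ j : Fin g, tau g a l0 j = a ^ (j : ℕ) := by
    intro j
    unfold tau
    rw [Finset.sum_eq_single (⟨0, hg⟩ : Fin g)]
    · simp [hl0, coeff_zero_eq_eval_zero]
    · intro i _ hi
      rw [hl0]
      simp only
      rw [if_neg (fun h => hi (Fin.ext h)), mul_zero]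
    · intro h; exact absurd (Finset.mem_univ _) h
  have key : Fr p g f (tau g a l0) = (s.eval a) ^ ((p - 1) / 2) • tau g a l0 := by
    funext i
    rw [Fr_eq_Lam, ← Lam_taylor p g a l0 _ (deg_bound p g hp2 f hd i i.2 X natDegree_X_le), hlam,
      Pi.smul_apply, hta, smul_eq_mul]
    have h1 : X * ((X ^ (i : ℕ) * f ^ ((p - 1) / 2)).comp (X + C a)) =
        X ^ p * ((X + C a) ^ (i : ℕ) * (s.comp (X + C a)) ^ ((p - 1) / 2)) := by
      have h2 : (X : k[X]) ^ p = X * (X ^ 2) ^ ((p - 1) / 2) := by
        rw [← pow_mul, mul_comm 2, half_mul p hp2, ← pow_succ']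
        congr 1
        have := hp.pos
        omega
      rw [h2, hf]
      simp only [mul_comp, pow_comp, X_comp, sub_comp, C_comp, mul_pow]
      ring
    rw [h1]
    have h3 := coeff_X_pow_mul ((X + C a) ^ (i : ℕ) * (s.comp (X + C a)) ^ ((p - 1) / 2)) p 0
    rw [zero_add] at h3
    rw [h3, coeff_zero_eq_eval_zero]
    simp [eval_comp, mul_comm]
  have hit : ∀ m, ∃ c : k, c ≠ 0 ∧ (Fr p g f)^[m] (tau g a l0) = c • tau g a l0 := by
    intro m
    induction m with
    | zero => exact ⟨1, one_ne_zero, by simp⟩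
    | succ m ih =>
      obtain ⟨c, hc, h⟩ := ih
      refine ⟨c ^ p * (s.eval a) ^ ((p - 1) / 2), mul_ne_zero (pow_ne_zero _ hc)
        (pow_ne_zero _ hs), ?_⟩
      rw [Function.iterate_succ_apply', h, Fr_smul, key, smul_smul]
  obtain ⟨c, hc, h⟩ := hit g
  rw [hF] at h
  have h5 := congrFun h ⟨0, hg⟩
  rw [Pi.zero_apply, Pi.smul_apply, hta, pow_zero, smul_eq_mul, mul_one] at h5
  exact hc h5.symm

end

end Pool.Agent.H19.PR
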